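import Pool.Agent.H16.LE.Img
import Pool.Agent.H79.CQ.Wor

/-!
# The local engine: truth values of circuits at worlds

A group `G` acts on the points (`ρ`) and is mapped onto `F_p^K` by `pr`. Nothing acts on the nodes: the
stabiliser of a node `a` is the group of the `g` for which the formula below `a` is its own image under
`ρ g` (`Img`, up to the order of the members of the gates). Everything else as in `H79/CQ/Eng`.
-/

set_option autoImplicit false
set_option linter.unusedSectionVars false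
set_option linter.unusedVariables false

namespace Pool.Agent.H16.LE

open Pool.Agent.H42.CS (Ax Atom Lit Gate Circuit Step Refutation)
open Pool.Agent.H79.CQ (Gad Wd sh Vs Gad.ext Gad.Agr Gad.IsW Gad.Tame nm sh_sh Vs_anti Vs_perp Vs_conj Vs_top)

variable {p : ℕ} [hp : Fact p.Prime]

/-- The stabiliser of (all points of) an atom. -/
def stA {Rel : ℕ → Type} {P G : Type} [Group G] (ρ : G →* Equiv.Perm P) (v : Atom Rel P) :
    Subgroup G where
  carrier := {g | ∀ i, ρ g (v.2.2 i) = v.2.2 i}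
  mul_mem' := by
    intro a b ha hb i
    rw [map_mul, Equiv.Perm.mul_apply, hb i, ha i]
  one_mem' := by
    intro i
    rw [map_one]; rfl
  inv_mem' := by
    intro a ha i
    rw [map_inv, Equiv.Perm.inv_eq_iff_eq]
    exact (ha i).symm

section

variable {Rel : ℕ → Type} {P G : Type} [Group G] (C : Circuit Rel P) (ρ : G →* Equiv.Perm P)

theorem img_one (a : C.N) : Img C (ρ 1) a a := by
  have h : (ρ 1 : P → P) = fun x => x := by
    funext x
    rw [map_one]
    rfl
  rw [h]
  exact img_refl a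

theorem img_mul {g h : G} {a b c : C.N} (h1 : Img C (ρ g) a b) (h2 : Img C (ρ h) b c) :
    Img C (ρ (h * g)) a c := by
  have e : (ρ (h * g) : P → P) = fun x => ρ h (ρ g x) := by
    funext x
    rw [map_mul]
    rfl
  rw [e]
  exact img_trans h1 h2

theorem img_inv {g : G} {a b : C.N} (h1 : Img C (ρ g) a b) : Img C (ρ g⁻¹) b a := by
  refine img_symm (g := ρ g) (fun x => ?_) h1
  rw [map_inv, Equiv.Perm.inv_eq_iff_eq]

theorem imgS_one (X : Set (Lit C.N)) : ImgS C (ρ 1) X X := by
  have h : (ρ 1 : P → P) = fun x => x := by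
    funext x
    rw [map_one]
    rfl
  rw [h]
  exact imgS_refl X

theorem imgS_mul {g h : G} {X Y Z : Set (Lit C.N)} (h1 : ImgS C (ρ g) X Y) (h2 : ImgS C (ρ h) Y Z) :
    ImgS C (ρ (h * g)) X Z := by
  have e : (ρ (h * g) : P → P) = fun x => ρ h (ρ g x) := by
    funext x
    rw [map_mul]
    rfl
  rw [e]
  exact imgS_trans h1 h2

theorem imgS_inv {g : G} {X Y : Set (Lit C.N)} (h1 : ImgS C (ρ g) X Y) : ImgS C (ρ g⁻¹) Y X := by
  refine imgS_symm (g := ρ g) (fun x => ?_) h1
  rw [map_inv, Equiv.Perm.inv_eq_iff_eq]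

/-- The stabiliser of a node: the formula below it is its own image. -/
def stN (a : C.N) : Subgroup G where
  carrier := {g | Img C (ρ g) a a}
  mul_mem' := fun hx hy => img_mul C ρ hy hx
  one_mem' := img_one C ρ a
  inv_mem' := fun hx => img_inv C ρ hx

/-- The stabiliser of a set of signed nodes. -/
def stS (X : Set (Lit C.N)) : Subgroup G where
  carrier := {g | ImgS C (ρ g) X X}
  mul_mem' := fun hx hy => imgS_mul C ρ hy hx
  one_mem' := imgS_one C ρ X
  inv_mem' := fun hx => imgS_inv C ρ hx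

/-- The stabiliser of a line: its members are taken to its members, repetitions are allowed. -/
def stL (X : Set (Lit C.N)) : Subgroup G where
  carrier := {g | (∀ x ∈ X, ∃ y ∈ X, y.pos = x.pos ∧ Img C (ρ g) x.node y.node) ∧
    ∀ x ∈ X, ∃ y ∈ X, y.pos = x.pos ∧ Img C (ρ g⁻¹) x.node y.node}
  mul_mem' := by
    intro g h hg hh
    refine ⟨fun x hx => ?_, fun x hx => ?_⟩
    · obtain ⟨y, hy, h1, h2⟩ := hh.1 x hx
      obtain ⟨z, hz, h3, h4⟩ := hg.1 y hy
      exact ⟨z, hz, h3.trans h1, img_mul C ρ h2 h4⟩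
    · obtain ⟨y, hy, h1, h2⟩ := hg.2 x hx
      obtain ⟨z, hz, h3, h4⟩ := hh.2 y hy
      refine ⟨z, hz, h3.trans h1, ?_⟩
      rw [mul_inv_rev]
      exact img_mul C ρ h2 h4
  one_mem' := by
    refine ⟨fun x hx => ⟨x, hx, rfl, img_one C ρ _⟩, fun x hx => ⟨x, hx, rfl, ?_⟩⟩
    rw [inv_one]
    exact img_one C ρ _
  inv_mem' := by
    intro g hg
    refine ⟨hg.2, ?_⟩
    rw [inv_inv]
    exact hg.1

/-- A group whose elements take the members of a line to its members stabilises it. -/
theorem le_stL {H : Subgroup G} {X : Set (Lit C.N)}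
    (h : ∀ g ∈ H, ∀ x ∈ X, ∃ y ∈ X, y.pos = x.pos ∧ Img C (ρ g) x.node y.node) : H ≤ stL C ρ X :=
  fun g hg => ⟨h g hg, h g⁻¹ (H.inv_mem hg)⟩

end

/-- The engine: the data. -/
structure Eng (p : ℕ) (Rel : ℕ → Type) (P K G : Type) [Fintype K] [Group G] extends Gad p K where
  /-- the homomorphism onto `F_p^K` -/
  pr : G → K → ZMod p
  pr_mul : ∀ g h, pr (g * h) = pr g + pr h
  pr_onto : Function.Surjective pr
  /-- the action on the points -/
  ρ : G →* Equiv.Perm P
  /-- the circuit -/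
  C : Circuit Rel P
  /-- the truth value of an atom at a world -/
  leaf : Atom Rel P → Wd p K → Prop
  leaf_loc : ∀ v f f', toGad.Agr (Vs pr (stA ρ v)) f f' → (leaf v f ↔ leaf v f')
  leaf_equi : ∀ g v f, leaf (mapV (ρ g) v) (sh (pr g) f) ↔ leaf v f
  /-- the family of the spaces -/
  fam : Set (Submodule (ZMod p) (K → ZMod p))
  node_mem : ∀ a, Vs pr (stN C ρ a) ∈ fam
  tame6 : ∀ l : Fin 6 → Submodule (ZMod p) (K → ZMod p), (∀ i, l i = ⊥ ∨ l i ∈ fam) →
    toGad.Tame (⨆ i, l i)

namespace Eng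

variable {Rel : ℕ → Type} {P K G : Type} [Fintype K] [Group G] (E : Eng p Rel P K G)

/-- The space of a node. -/
def Vn (a : E.C.N) : Submodule (ZMod p) (K → ZMod p) := Vs E.pr (stN E.C E.ρ a)

/-- The space of a line. -/
def Vl (X : Set (Lit E.C.N)) : Submodule (ZMod p) (K → ZMod p) := Vs E.pr (stL E.C E.ρ X)

/-- The space of a set of signed nodes (of the members of a gate). -/
def Vx (X : Set (Lit E.C.N)) : Submodule (ZMod p) (K → ZMod p) := Vs E.pr (stS E.C E.ρ X)

open Classical in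
/-- The truth value of a node at a world on `Vn a`. -/
noncomputable def val (a : E.C.N) (f : Wd p K) : Prop :=
  match h : E.C.gate a with
  | .var v => E.leaf v f
  | .and S => ∀ x : {x // x ∈ S},
      (val x.1.node (E.toGad.ext (E.Vn a) (E.Vn a ⊔ E.Vn x.1.node) f) ↔ x.1.pos = true)
  | .sym A S => {x : Lit E.C.N | ∃ hx : x ∈ S,
      (val (⟨x, hx⟩ : {x // x ∈ S}).1.node
        (E.toGad.ext (E.Vn a) (E.Vn a ⊔ E.Vn x.node) f) ↔ x.pos = true)}.ncard ∈ A
termination_by E.C.rank a
decreasing_by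
  · exact E.C.rank_lt a x.1 (by rw [h]; exact x.2)
  · exact E.C.rank_lt a x (by rw [h]; exact hx)

/-- The truth value of a signed node. -/
def tr (x : Lit E.C.N) (f : Wd p K) : Prop := E.val x.node f ↔ x.pos = true

/-- The number of the true members of `S` at the world `f` on `U`. -/
noncomputable def cnt (S : Set (Lit E.C.N)) (U : Submodule (ZMod p) (K → ZMod p)) (f : Wd p K) :
    ℕ := {x | x ∈ S ∧ E.tr x (E.toGad.ext U (U ⊔ E.Vn x.node) f)}.ncard

theorem val_var {a : E.C.N} {v : Atom Rel P} (h : E.C.gate a = .var v) (f : Wd p K) :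
    E.val a f ↔ E.leaf v f := by
  unfold val
  split
  · next v' h' => rw [h] at h'; cases h'; rfl
  · next S h' => rw [h] at h'; cases h'
  · next A S h' => rw [h] at h'; cases h'

theorem val_and {a : E.C.N} {S : Set (Lit E.C.N)} (h : E.C.gate a = .and S) (f : Wd p K) :
    E.val a f ↔ ∀ x ∈ S, E.tr x (E.toGad.ext (E.Vn a) (E.Vn a ⊔ E.Vn x.node) f) := by
  unfold val
  split
  · next v' h' => rw [h] at h'; cases h'
  · next S' h' =>
      rw [h] at h'; cases h'
      constructor
      · intro H x hx; exact H ⟨x, hx⟩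
      · intro H x; exact H x.1 x.2
  · next A S h' => rw [h] at h'; cases h'

theorem val_sym {a : E.C.N} {A : Set ℕ} {S : Set (Lit E.C.N)} (h : E.C.gate a = .sym A S)
    (f : Wd p K) : E.val a f ↔ E.cnt S (E.Vn a) f ∈ A := by
  unfold val
  split
  · next v' h' => rw [h] at h'; cases h'
  · next S' h' => rw [h] at h'; cases h'
  · next A' S' h' =>
      rw [h] at h'; cases h'
      have : {x : Lit E.C.N | ∃ hx : x ∈ S,
          (E.val (⟨x, hx⟩ : {x // x ∈ S}).1.node
            (E.toGad.ext (E.Vn a) (E.Vn a ⊔ E.Vn x.node) f) ↔ x.pos = true)} =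
          {x | x ∈ S ∧ E.tr x (E.toGad.ext (E.Vn a) (E.Vn a ⊔ E.Vn x.node) f)} := by
        ext x
        simp only [Set.mem_ofPred_eq, exists_prop]
        rfl
      rw [this]
      rfl

/-- `U` lies in the sum of at most `k` spaces of the family. -/
def Sm (k : ℕ) (U : Submodule (ZMod p) (K → ZMod p)) : Prop :=
  ∃ l : Fin k → Submodule (ZMod p) (K → ZMod p), (∀ i, l i = ⊥ ∨ l i ∈ E.fam) ∧ U ≤ ⨆ i, l i

/-- The truth of a line. -/
def Tru (Λ : Set (Lit E.C.N)) : Prop :=
  ∀ f, E.toGad.IsW (E.Vl Λ) f →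
    ∃ x ∈ Λ, E.tr x (E.toGad.ext (E.Vl Λ) (E.Vl Λ ⊔ E.Vn x.node) f)

/-- The sentence `A` is true: at every world on a tame space that contains the space `Y` of the
instance, some member of the instance is true at every world that agrees on `Y`. -/
def AxOK (A : Ax Rel) : Prop :=
  ∀ v : Fin A.k → P, ∃ Y ∈ E.fam, ∀ (U : Submodule (ZMod p) (K → ZMod p)) (f : Wd p K), Y ≤ U →
    E.toGad.Tame U → E.toGad.IsW U f →
      ∃ x ∈ A.inst v, ∀ f', E.toGad.Agr Y f f' → (E.leaf x.1 f' ↔ x.2 = true)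

end Eng

end Pool.Agent.H16.LE
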