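import Pool.Agent.H16.LE.Eng

/-!
# The counting lemma, local version

`gkl`: the group `H` need not act on `X`: it is enough that every `g ∈ H` has a bijection `b g` of `S` with
itself which preserves `Sp, W1, W2` and transports `Φ` along the shift by `pr g`. PROOF. `γ x` is chosen as in
`H79/CQ/Gkl`: it depends only on `W1 x, W2 x, Sp x`, so `γ (b g x) = γ x`. The map `F x := b (γ x) x` is a
bijection of `S` with itself, and `Φ (F x) (W1 (F x)) ↔ Φ x (W2 x)`.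
-/

set_option autoImplicit false
set_option linter.unusedSectionVars false
set_option linter.unusedVariables false

namespace Pool.Agent.H16.LE

open Pool.Agent.H42.CS (Ax Atom Lit Gate Circuit Step Refutation)
open Pool.Agent.H79.CQ (Gad Wd sh Vs Gad.ext Gad.Agr Gad.IsW Gad.Tame nm sh_sh Vs_anti Vs_perp Vs_conj Vs_top)

variable {p : ℕ} [hp : Fact p.Prime]

namespace Eng

variable {Rel : ℕ → Type} {P K G : Type} [Fintype K] [Group G] (E : Eng p Rel P K G)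

omit [Fintype K] in
private theorem agr_mono {g : Gad p K} {U U' : Submodule (ZMod p) (K → ZMod p)} (hle : U ≤ U') {f f' : Wd p K}
    (h : g.Agr U' f f') : g.Agr U f f' := fun y hy hD => h y (hle hy) hD

open Classical in
/-- The element which transforms one world into the other one. -/
private noncomputable def gam (H : Subgroup G) (f1 f2 : Wd p K) (V : Submodule (ZMod p) (K → ZMod p)) : G :=
  if h : ∃ g ∈ H, E.toGad.Agr (Vs E.pr H ⊔ V) f1 (sh (E.pr g) f2) then h.choose else 1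

private theorem gam_mem (H : Subgroup G) (f1 f2 : Wd p K) (V : Submodule (ZMod p) (K → ZMod p)) :
    E.gam H f1 f2 V ∈ H := by
  unfold gam
  split
  · next h => exact h.choose_spec.1
  · exact H.one_mem

private theorem gam_agr (H : Subgroup G) {f1 f2 : Wd p K} {V : Submodule (ZMod p) (K → ZMod p)}
    (h : ∃ g ∈ H, E.toGad.Agr (Vs E.pr H ⊔ V) f1 (sh (E.pr g) f2)) :
    E.toGad.Agr (Vs E.pr H ⊔ V) f1 (sh (E.pr (E.gam H f1 f2 V)) f2) := by
  unfold gam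
  rw [dif_pos h]
  exact h.choose_spec.2

theorem gkl {X : Type} (H : Subgroup G) (b : G → X → X) (S : Set X)
    (hb : ∀ g ∈ H, Set.BijOn (b g) S S) (Sp : X → Submodule (ZMod p) (K → ZMod p))
    (hSp : ∀ g ∈ H, ∀ x ∈ S, Sp (b g x) = Sp x) (Φ : X → Wd p K → Prop)
    (hloc : ∀ x ∈ S, ∀ f f', E.toGad.IsW (Sp x) f → E.toGad.Agr (Sp x) f f' →
      (Φ x f ↔ Φ x f'))
    (hequi : ∀ g ∈ H, ∀ x ∈ S, ∀ f, E.toGad.IsW (Sp x) f →
      (Φ (b g x) (sh (E.pr g) f) ↔ Φ x f))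
    (W1 W2 : X → Wd p K) (hW1 : ∀ g ∈ H, ∀ x ∈ S, W1 (b g x) = W1 x)
    (hW2 : ∀ g ∈ H, ∀ x ∈ S, W2 (b g x) = W2 x)
    (hw1 : ∀ x ∈ S, E.toGad.IsW (Vs E.pr H ⊔ Sp x) (W1 x))
    (hw2 : ∀ x ∈ S, E.toGad.IsW (Vs E.pr H ⊔ Sp x) (W2 x))
    (ha : ∀ x ∈ S, E.toGad.Agr (Vs E.pr H) (W1 x) (W2 x)) :
    {x | x ∈ S ∧ Φ x (W1 x)}.ncard = {x | x ∈ S ∧ Φ x (W2 x)}.ncard := by
  obtain ⟨γ, hγ⟩ : ∃ γ : X → G, γ = fun x => E.gam H (W1 x) (W2 x) (Sp x) := ⟨_, rfl⟩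
  have hm' : ∀ x, γ x ∈ H := fun x => by
    rw [hγ]
    exact E.gam_mem H _ _ _
  have hinv : ∀ g ∈ H, ∀ x ∈ S, γ (b g x) = γ x := fun g hg x hx => by
    rw [hγ]
    show E.gam H (W1 (b g x)) (W2 (b g x)) (Sp (b g x)) = E.gam H (W1 x) (W2 x) (Sp x)
    rw [hW1 g hg x hx, hW2 g hg x hx, hSp g hg x hx]
  have hagr : ∀ x ∈ S, E.toGad.Agr (Vs E.pr H ⊔ Sp x) (W1 x) (sh (E.pr (γ x)) (W2 x)) := fun x hx => by
    rw [hγ]
    refine E.gam_agr H ?_
    obtain ⟨t, ht, h2⟩ := E.toGad.exists_shift (le_sup_left : Vs E.pr H ≤ Vs E.pr H ⊔ Sp x) (hw2 x hx) (hw1 x hx)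
      (fun y hy hD => (ha x hx y hy hD).symm)
    obtain ⟨g, hg, hgt⟩ := Vs_perp E.pr_mul H t ht
    exact ⟨g, hg, by rw [hgt]; exact h2⟩
  have hmem : ∀ x ∈ S, b (γ x) x ∈ S := fun x hx => (hb _ (hm' x)).mapsTo hx
  have hΦ : ∀ x ∈ S, (Φ (b (γ x) x) (W1 (b (γ x) x)) ↔ Φ x (W2 x)) := fun x hx => by
    have hg := hm' x
    rw [hW1 _ hg x hx, hloc (b (γ x) x) (hmem x hx) (W1 x) (sh (E.pr (γ x)) (W2 x))
      (by rw [hSp _ hg x hx]; exact E.toGad.isW_mono le_sup_right (hw1 x hx))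
      (by rw [hSp _ hg x hx]; exact agr_mono le_sup_right (hagr x hx))]
    exact hequi _ hg x hx (W2 x) (E.toGad.isW_mono le_sup_right (hw2 x hx))
  symm
  refine Set.ncard_congr (fun x _ => b (γ x) x) ?_ ?_ ?_
  · rintro x ⟨hx, h2⟩
    exact ⟨hmem x hx, (hΦ x hx).2 h2⟩
  · rintro x y ⟨hx, _⟩ ⟨hy, _⟩ h2
    have h2' : b (γ x) x = b (γ y) y := h2
    have h3 : γ x = γ y := by
      rw [← hinv _ (hm' x) x hx, h2', hinv _ (hm' y) y hy]
    rw [h3] at h2'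
    exact (hb _ (hm' y)).injOn hx hy h2'
  · rintro y ⟨hy, h2⟩
    obtain ⟨x, hx, hxy⟩ := (hb _ (hm' y)).surjOn hy
    have h3 : γ x = γ y := by
      rw [← hxy, hinv _ (hm' y) x hx] 
    have h4 : b (γ x) x = y := by
      rw [h3]
      exact hxy
    refine ⟨x, ⟨hx, ?_⟩, h4⟩
    rw [← hΦ x hx, h4]
    exact h2

/-- The same for the existence of true members; `b g` need not be a bijection. -/
theorem gke {X : Type} (H : Subgroup G) (b : G → X → X) (S : Set X)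
    (hb : ∀ g ∈ H, Set.MapsTo (b g) S S) (Sp : X → Submodule (ZMod p) (K → ZMod p))
    (hSp : ∀ g ∈ H, ∀ x ∈ S, Sp (b g x) = Sp x) (Φ : X → Wd p K → Prop)
    (hloc : ∀ x ∈ S, ∀ f f', E.toGad.IsW (Sp x) f → E.toGad.Agr (Sp x) f f' →
      (Φ x f ↔ Φ x f'))
    (hequi : ∀ g ∈ H, ∀ x ∈ S, ∀ f, E.toGad.IsW (Sp x) f →
      (Φ (b g x) (sh (E.pr g) f) ↔ Φ x f))
    (W1 W2 : X → Wd p K) (hW1 : ∀ g ∈ H, ∀ x ∈ S, W1 (b g x) = W1 x)
    (hw1 : ∀ x ∈ S, E.toGad.IsW (Vs E.pr H ⊔ Sp x) (W1 x))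
    (hw2 : ∀ x ∈ S, E.toGad.IsW (Vs E.pr H ⊔ Sp x) (W2 x))
    (ha : ∀ x ∈ S, E.toGad.Agr (Vs E.pr H) (W1 x) (W2 x))
    (h : ∃ x ∈ S, Φ x (W2 x)) : ∃ x ∈ S, Φ x (W1 x) := by
  obtain ⟨x, hx, h2⟩ := h
  obtain ⟨t, ht, h3⟩ := E.toGad.exists_shift (le_sup_left : Vs E.pr H ≤ Vs E.pr H ⊔ Sp x) (hw2 x hx) (hw1 x hx)
    (fun y hy hD => (ha x hx y hy hD).symm)
  obtain ⟨g, hg, hgt⟩ := Vs_perp E.pr_mul H t ht
  have h4 : E.toGad.Agr (Vs E.pr H ⊔ Sp x) (W1 x) (sh (E.pr g) (W2 x)) := by rw [hgt]; exact h3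
  refine ⟨b g x, hb g hg hx, ?_⟩
  rw [hW1 _ hg x hx, hloc (b g x) (hb g hg hx) (W1 x) (sh (E.pr g) (W2 x))
    (by rw [hSp _ hg x hx]; exact E.toGad.isW_mono le_sup_right (hw1 x hx))
    (by rw [hSp _ hg x hx]; exact agr_mono le_sup_right h4)]
  exact (hequi _ hg x hx (W2 x) (E.toGad.isW_mono le_sup_right (hw2 x hx))).2 h2

/-! ### Simple facts about spaces -/

theorem Sm_tame {U : Submodule (ZMod p) (K → ZMod p)} (h : E.Sm 6 U) : E.toGad.Tame U := by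
  obtain ⟨l, hl, hU⟩ := h
  exact E.toGad.tame_mono hU (E.tame6 l hl)

theorem Sm_mono {k k' : ℕ} (hk : k ≤ k') {U U' : Submodule (ZMod p) (K → ZMod p)} (hle : U' ≤ U)
    (h : E.Sm k U) : E.Sm k' U' := by
  obtain ⟨l, hl, hU⟩ := h
  refine ⟨fun i => if hi : i.1 < k then l ⟨i.1, hi⟩ else ⊥, fun i => ?_, hle.trans (hU.trans ?_)⟩
  · by_cases hi : i.1 < k
    · simp only [dif_pos hi]
      exact hl _
    · left
      simp only [dif_neg hi]
  · refine iSup_le fun i => ?_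
    refine le_trans (le_of_eq ?_) (le_iSup _ (⟨i.1, lt_of_lt_of_le i.2 hk⟩ : Fin k'))
    simp only [dif_pos i.2]

theorem Sm_sup {k k' : ℕ} {U U' : Submodule (ZMod p) (K → ZMod p)} (h : E.Sm k U)
    (h' : E.Sm k' U') : E.Sm (k + k') (U ⊔ U') := by
  obtain ⟨l, hl, hU⟩ := h
  obtain ⟨l', hl', hU'⟩ := h'
  refine ⟨Fin.append l l', fun i => ?_, sup_le (hU.trans ?_) (hU'.trans ?_)⟩
  · refine Fin.addCases (fun j => ?_) (fun j => ?_) i
    · rw [Fin.append_left]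
      exact hl j
    · rw [Fin.append_right]
      exact hl' j
  · refine iSup_le fun i => ?_
    refine le_trans (le_of_eq ?_) (le_iSup _ (Fin.castAdd k' i))
    rw [Fin.append_left]
  · refine iSup_le fun i => ?_
    refine le_trans (le_of_eq ?_) (le_iSup _ (Fin.natAdd k i))
    rw [Fin.append_right]

theorem Sm_mem {U : Submodule (ZMod p) (K → ZMod p)} (h : U ∈ E.fam) : E.Sm 1 U := by
  exact ⟨fun _ => U, fun _ => Or.inr h, le_iSup (fun _ : Fin 1 => U) 0⟩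

theorem Sm_Vn (a : E.C.N) : E.Sm 1 (E.Vn a) := by
  exact E.Sm_mem (E.node_mem a)

/-- The space of the image of a node is the same (the stabilisers are conjugate). -/
theorem Vn_img {g : G} {a b : E.C.N} (h : Img E.C (E.ρ g) a b) : E.Vn b = E.Vn a := by
  refine Vs_conj E.pr_mul (stN E.C E.ρ a) (stN E.C E.ρ b) g fun x => ?_
  constructor
  · intro hx
    have h1 : Img E.C (E.ρ x) b b := hx
    show Img E.C (E.ρ (g⁻¹ * x * g)) a a
    have h2 := img_mul E.C E.ρ h h1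
    have h3 := img_mul E.C E.ρ h2 (img_inv E.C E.ρ h)
    rw [mul_assoc]
    exact h3
  · intro hx
    have h1 : Img E.C (E.ρ (g⁻¹ * x * g)) a a := hx
    show Img E.C (E.ρ x) b b
    have h2 := img_mul E.C E.ρ (img_inv E.C E.ρ h) h1
    have h3 := img_mul E.C E.ρ h2 h
    have h4 : g * (g⁻¹ * x * g * g⁻¹) = x := by group
    rw [h4] at h3
    exact h3

theorem Vx_img {g : G} {X Y : Set (Lit E.C.N)} (h : ImgS E.C (E.ρ g) X Y) : E.Vx Y = E.Vx X := by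
  refine Vs_conj E.pr_mul (stS E.C E.ρ X) (stS E.C E.ρ Y) g fun x => ?_
  constructor
  · intro hx
    have h1 : ImgS E.C (E.ρ x) Y Y := hx
    show ImgS E.C (E.ρ (g⁻¹ * x * g)) X X
    have h2 := imgS_mul E.C E.ρ h h1
    have h3 := imgS_mul E.C E.ρ h2 (imgS_inv E.C E.ρ h)
    rw [mul_assoc]
    exact h3
  · intro hx
    have h1 : ImgS E.C (E.ρ (g⁻¹ * x * g)) X X := hx
    show ImgS E.C (E.ρ x) Y Y
    have h2 := imgS_mul E.C E.ρ (imgS_inv E.C E.ρ h) h1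
    have h3 := imgS_mul E.C E.ρ h2 h
    have h4 : g * (g⁻¹ * x * g * g⁻¹) = x := by group
    rw [h4] at h3
    exact h3

/-- The stabiliser of a node stabilises the set of its children. -/
theorem stN_le_and {a : E.C.N} {S : Set (Lit E.C.N)} (h : E.C.gate a = .and S) :
    stN E.C E.ρ a ≤ stS E.C E.ρ S := by
  intro g hg
  obtain ⟨S', h1, h2⟩ := img_and (show Img E.C (E.ρ g) a a from hg) h
  rw [h] at h1
  have h3 := Gate.and.inj h1
  subst h3
  exact h2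

theorem stN_le_sym {a : E.C.N} {A : Set ℕ} {S : Set (Lit E.C.N)} (h : E.C.gate a = .sym A S) :
    stN E.C E.ρ a ≤ stS E.C E.ρ S := by
  intro g hg
  obtain ⟨S', h1, h2⟩ := img_sym (show Img E.C (E.ρ g) a a from hg) h
  rw [h] at h1
  have h3 := (Gate.sym.inj h1).2
  subst h3
  exact h2

/-- The stabiliser of a node labelled by an atom fixes the points of the atom. -/
theorem stN_le_var {a : E.C.N} {v : Atom Rel P} (h : E.C.gate a = .var v) :
    stN E.C E.ρ a ≤ stA E.ρ v := by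
  intro g hg i
  have h1 := img_var (show Img E.C (E.ρ g) a a from hg) h
  rw [h] at h1
  have h2 := Gate.var.inj h1
  obtain ⟨n, r, u⟩ := v
  simp only [mapV, Sigma.mk.injEq, heq_eq_eq, true_and, Prod.mk.injEq] at h2
  exact (congrFun h2 i).symm

theorem Vs_stA_le {a : E.C.N} {v : Atom Rel P} (h : E.C.gate a = .var v) :
    Vs E.pr (stA E.ρ v) ≤ E.Vn a := by
  exact Vs_anti (E.stN_le_var h)

open Classical in
/-- A bijection of the set `X` which takes its members to their images under `g`, if there is one. -/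
noncomputable def bj (X : Set (Lit E.C.N)) (g : G) : Lit E.C.N → Lit E.C.N :=
  if h : ImgS E.C (E.ρ g) X X then h.choose else id

theorem bj_spec {X : Set (Lit E.C.N)} {g : G} (h : g ∈ stS E.C E.ρ X) : Set.BijOn (E.bj X g) X X ∧
    (∀ x ∈ X, (E.bj X g x).pos = x.pos) ∧ ∀ x ∈ X, Img E.C (E.ρ g) x.node (E.bj X g x).node := by
  have h1 : ImgS E.C (E.ρ g) X X := h
  unfold bj
  rw [dif_pos h1]
  exact h1.choose_spec

end Eng

end Pool.Agent.H16.LE
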