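import Pool.Agent.H16.LE.Rst

/-!
# The spaces of the nodes below a line are small

`card_Vs_rel`: `card (Vs H') ≤ [H : H'] card (Vs H)` for `H' ≤ H`. `card_Vn_le`: a node `a` below the line `Λ`,
`H` a group that leaves `Λ` invariant: for `g ∈ H` the formula below `a` has an image `a_g` among the nodes, and
`a_g = a_h` gives `h⁻¹ g ∈ stN a`; so `[H : H ⊓ stN a]` is at most the number of the nodes.
-/

set_option autoImplicit false
set_option linter.unusedSectionVars false
set_option linter.unusedVariables false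

namespace Pool.Agent.H16.LE

open Pool.Agent.H42.CS (Ax Atom Lit Gate Circuit Step Refutation)
open Pool.Agent.H79.CQ (Gad Wd sh Vs Gad.ext Gad.Agr Gad.IsW Gad.Tame nm sh_sh Vs_anti Vs_perp Vs_conj Vs_top)

section

variable {p : ℕ} [hp : Fact p.Prime] {K G : Type} [Fintype K] [Group G] {pr : G → K → ZMod p}

private theorem idx_pow (hm : ∀ g h, pr (g * h) = pr g + pr h) (g : G) (n : ℕ) :
    pr (g ^ n) = (n : ZMod p) • pr g := by
  induction n with
  | zero => rw [pow_zero, Pool.Agent.H79.CQ.pr_one hm, Nat.cast_zero, zero_smul]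
  | succ n ih => rw [pow_succ, hm, ih, Nat.cast_succ, add_smul, one_smul]

/-- the image of a subgroup -/
private def im (hm : ∀ g h, pr (g * h) = pr g + pr h) (H : Subgroup G) :
    Submodule (ZMod p) (K → ZMod p) where
  carrier := {v | ∃ g ∈ H, pr g = v}
  add_mem' := by
    rintro _ _ ⟨g, hg, rfl⟩ ⟨h, hh, rfl⟩
    exact ⟨g * h, H.mul_mem hg hh, hm g h⟩
  zero_mem' := ⟨1, H.one_mem, Pool.Agent.H79.CQ.pr_one hm⟩
  smul_mem' := by
    rintro r _ ⟨g, hg, rfl⟩
    refine ⟨g ^ r.val, H.pow_mem hg _, ?_⟩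
    rw [idx_pow hm, ZMod.natCast_zmod_val]

private theorem card_quo (hm : ∀ g h, pr (g * h) = pr g + pr h) (H : Subgroup G) :
    Nat.card (Vs pr H) = Nat.card ((K → ZMod p) ⧸ im hm H) := by
  classical
  have h1 : Vs pr H = (im hm H).dualAnnihilator.comap (dotProductEquiv (ZMod p) K).toLinearMap := by
    ext y
    rw [Submodule.mem_comap, Submodule.mem_dualAnnihilator]
    constructor
    · rintro hy _ ⟨g, hg, rfl⟩
      show y ⬝ᵥ pr g = 0
      rw [dotProduct_comm]
      exact hy g hg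
    · intro hy g hg
      have h2 : y ⬝ᵥ pr g = 0 := hy (pr g) ⟨g, hg, rfl⟩
      rw [dotProduct_comm] at h2
      exact h2
  have h2 : Module.finrank (ZMod p) (Vs pr H) =
      Module.finrank (ZMod p) (im hm H).dualAnnihilator := by
    rw [h1]
    exact ((dotProductEquiv (ZMod p) K).ofSubmodule' _).finrank_eq
  have h3 := Subspace.finrank_add_finrank_dualAnnihilator_eq (im hm H)
  have h4 := Submodule.finrank_quotient_add_finrank (im hm H)
  rw [Module.natCard_eq_pow_finrank (K := ZMod p) (V := Vs pr H),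
    Module.natCard_eq_pow_finrank (K := ZMod p) (V := (K → ZMod p) ⧸ im hm H)]
  congr 1
  omega

/-- The index of a subgroup bounds the growth of the annihilator. -/
theorem card_Vs_rel [Finite G] (hm : ∀ g h, pr (g * h) = pr g + pr h) {H H' : Subgroup G}
    (hle : H' ≤ H) : Nat.card (Vs pr H') ≤ H'.relIndex H * Nat.card (Vs pr H) := by
  have hle' : im hm H' ≤ im hm H := by
    rintro _ ⟨g, hg, rfl⟩
    exact ⟨g, hle hg, rfl⟩
  rw [card_quo hm H', card_quo hm H, ← Submodule.card_quotient_mul_card_quotient (im hm H) (im hm H') hle']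
  refine Nat.mul_le_mul_right _ ?_
  show _ ≤ (H'.subgroupOf H).index
  let φ : H ⧸ H'.subgroupOf H → (im hm H).map (im hm H').mkQ := Quotient.lift
    (fun g => ⟨(im hm H').mkQ (pr (g : G)), ⟨pr (g : G), ⟨(g : G), g.2, rfl⟩, rfl⟩⟩) (by
      intro a b hab
      have h6 : a⁻¹ * b ∈ H'.subgroupOf H := QuotientGroup.leftRel_apply.1 hab
      have h7 : (a : G)⁻¹ * (b : G) ∈ H' := h6
      apply Subtype.ext
      show (im hm H').mkQ (pr (a : G)) = (im hm H').mkQ (pr (b : G))
      rw [← sub_eq_zero, ← map_sub, Submodule.mkQ_apply, Submodule.Quotient.mk_eq_zero]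
      refine ⟨((a : G)⁻¹ * (b : G))⁻¹, H'.inv_mem h7, ?_⟩
      rw [Pool.Agent.H79.CQ.pr_inv hm, hm, Pool.Agent.H79.CQ.pr_inv hm]
      abel)
  have hφ : Function.Surjective φ := by
    rintro ⟨_, ⟨_, ⟨g, hg, rfl⟩, rfl⟩⟩
    exact ⟨Quotient.mk _ ⟨g, hg⟩, rfl⟩
  exact Nat.card_le_card_of_surjective φ hφ

end

section

variable {Rel : ℕ → Type} {P G : Type} [Group G] {C : Circuit Rel P} {ρ : G →* Equiv.Perm P}

/-- A node below an invariant line has an image. -/
theorem bel_img {Λ : Set (Lit C.N)} {g : G} (hg : g ∈ stL C ρ Λ) {a : C.N} (ha : Bel C Λ a) :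
    ∃ b, Bel C Λ b ∧ Img C (ρ g) a b := by
  induction ha with
  | @mem x hx =>
    obtain ⟨y, hy, -, h2⟩ := hg.1 x hx
    exact ⟨y.node, Bel.mem hy, h2⟩
  | @child a x ha hx ih =>
    obtain ⟨b, hb, hab⟩ := ih
    rcases hga : C.gate a with v | S | ⟨A, S⟩
    · rw [hga] at hx
      exact absurd hx (Set.notMem_empty x)
    · rw [hga] at hx
      obtain ⟨S', h1, β, h2, h3, h4⟩ := img_and hab hga
      refine ⟨(β x).node, Bel.child hb ?_, h4 x hx⟩
      rw [h1]
      exact h2.mapsTo hx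
    · rw [hga] at hx
      obtain ⟨S', h1, β, h2, h3, h4⟩ := img_sym hab hga
      refine ⟨(β x).node, Bel.child hb ?_, h4 x hx⟩
      rw [h1]
      exact h2.mapsTo hx

theorem idx_le [Finite G] {Λ : Set (Lit C.N)} {H : Subgroup G} (hH : H ≤ stL C ρ Λ) {a : C.N}
    (ha : Bel C Λ a) : (H ⊓ stN C ρ a).relIndex H ≤ Nat.card C.N := by
  classical
  have h1 : ∀ g : H, ∃ b, Img C (ρ (g : G)) a b := fun g => by
    obtain ⟨b, -, hb⟩ := bel_img (hH g.2) ha
    exact ⟨b, hb⟩
  choose φ hφ using h1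
  show ((H ⊓ stN C ρ a).subgroupOf H).index ≤ _
  have h2 : ∀ g h : H, φ g = φ h → g⁻¹ * h ∈ (H ⊓ stN C ρ a).subgroupOf H := by
    intro g h he
    have h3 := hφ h
    rw [← he] at h3
    have h4 := img_mul C ρ h3 (img_inv C ρ (hφ g))
    rw [Subgroup.mem_subgroupOf]
    exact ⟨(g⁻¹ * h).2, h4⟩
  let ψ : H ⧸ (H ⊓ stN C ρ a).subgroupOf H → C.N := fun q => φ q.out
  have hψ : Function.Injective ψ := by
    intro q q' he
    have h3 := h2 _ _ he
    have h4 : (QuotientGroup.mk q.out : H ⧸ (H ⊓ stN C ρ a).subgroupOf H) = QuotientGroup.mk q'.out :=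
      QuotientGroup.eq.2 h3
    rw [← QuotientGroup.out_eq' q, ← QuotientGroup.out_eq' q']
    exact h4
  exact Nat.card_le_card_of_injective ψ hψ

variable {p : ℕ} [hp : Fact p.Prime] {K : Type} [Fintype K] {pr : G → K → ZMod p}

theorem card_Vn_le [Finite G] (hm : ∀ g h, pr (g * h) = pr g + pr h) {Λ : Set (Lit C.N)}
    {H : Subgroup G} (hH : H ≤ stL C ρ Λ) {a : C.N} (ha : Bel C Λ a) :
    Nat.card (Vs pr (stN C ρ a)) ≤ Nat.card C.N * Nat.card (Vs pr H) := by
  have hfin : Finite (K → ZMod p) := inferInstance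
  have h1 : Vs pr (stN C ρ a) ≤ Vs pr (H ⊓ stN C ρ a) := Vs_anti inf_le_right
  have h2 : Nat.card (Vs pr (stN C ρ a)) ≤ Nat.card (Vs pr (H ⊓ stN C ρ a)) :=
    Nat.card_le_card_of_injective (Submodule.inclusion h1) (Submodule.inclusion_injective h1)
  refine h2.trans ((card_Vs_rel hm (inf_le_left : H ⊓ stN C ρ a ≤ H)).trans ?_)
  exact Nat.mul_le_mul_right _ (idx_le hH ha)

end

section

variable {Rel : ℕ → Type} {P G : Type} [Group G] {ρ : G →* Equiv.Perm P} {p : ℕ} [hp : Fact p.Prime]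
  {K : Type} [Fintype K] {pr : G → K → ZMod p} {T : Set (Ax Rel)}

/-- **The spaces of the refutation `rst R`.** -/
theorem rst_spaces [Finite G] (hm : ∀ g h, pr (g * h) = pr g + pr h) (ho : Function.Surjective pr)
    (R : Refutation T P) (B : ℕ)
    (hR : ∀ Λ ∈ R.lines, ∃ H : Subgroup G,
      (∀ g ∈ H, ∀ x ∈ Λ, ∃ y ∈ Λ, y.pos = x.pos ∧ Img R.C (ρ g) x.node y.node) ∧
        Nat.card (Vs pr H) ≤ B) :
    (∀ a, Nat.card (Vs pr (stN (rst R).C ρ a)) ≤ (R.size + 1) * B) ∧
      ∀ Λ ∈ (rst R).lines, Nat.card (Vs pr (stL (rst R).C ρ Λ)) ≤ B := by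
  have hfin : Finite (K → ZMod p) := inferInstance
  have hB : 1 ≤ B := by
    obtain ⟨H, -, h2⟩ := hR ∅ R.empty_mem
    exact le_trans Nat.card_pos h2
  have hL : ∀ Λ ∈ R.lines, ∃ H : Subgroup G, H ≤ stL (rst R).C ρ Λ ∧ Nat.card (Vs pr H) ≤ B := by
    intro Λ hΛ
    obtain ⟨H, h1, h2⟩ := hR Λ hΛ
    refine ⟨H, le_stL (C := (rst R).C) ρ fun g hg x hx => ?_, h2⟩
    obtain ⟨y, hy, h3, h4⟩ := h1 g hg x hx
    exact ⟨y, hy, h3, rst_img R h4 (belR_mem R hΛ hx) (belR_mem R hΛ hy)⟩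
  refine ⟨fun a => ?_, fun Λ hΛ => ?_⟩
  · by_cases ha : BelR R a
    · obtain ⟨Λ, hΛ, hb⟩ := ha
      have hb' : Bel (rst R).C Λ a := by
        have key : ∀ a : R.C.N, Bel R.C Λ a → Bel (rst R).C Λ a := by
          intro a hb
          induction hb with
          | mem hx => exact Bel.mem (C := (rst R).C) hx
          | child hb hx ih =>
            refine Bel.child (C := (rst R).C) ih ?_
            have h5 := rst_pos R ⟨Λ, hΛ, hb⟩
            show _ ∈ ((rstC R).gate _).children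
            rw [h5]
            exact hx
        exact key a hb
      obtain ⟨H, h1, h2⟩ := hL Λ hΛ
      refine (card_Vn_le hm h1 hb').trans (Nat.mul_le_mul ?_ h2)
      show Nat.card R.C.N ≤ R.size + 1
      unfold Refutation.size
      omega
    · have h1 : stN (rst R).C ρ a = ⊤ := by
        rw [eq_top_iff]
        intro g _
        exact rst_triv R (ρ g) ha
      rw [h1, Vs_top ho]
      have h2 : Nat.card (⊥ : Submodule (ZMod p) (K → ZMod p)) = 1 := Nat.card_unique
      rw [h2]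
      exact le_trans hB (Nat.le_mul_of_pos_left B (Nat.succ_pos _))
  · obtain ⟨H, h1, h2⟩ := hL Λ hΛ
    have h3 : Vs pr (stL (rst R).C ρ Λ) ≤ Vs pr H := Vs_anti h1
    exact (Nat.card_le_card_of_injective (Submodule.inclusion h3) (Submodule.inclusion_injective h3)).trans h2

theorem size_pos (R : Refutation T P) : 1 ≤ R.size := by
  have h0 : Finite (Lit R.C.N) := Finite.of_injective (fun x : Lit R.C.N => (x.node, x.pos)) fun x y h => by
    rw [Prod.mk.injEq] at h
    exact Lit.ext h.1 h.2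
  have h1 : 0 < R.lines.ncard := (Set.ncard_pos (Set.toFinite _)).2 ⟨∅, R.empty_mem⟩
  unfold Refutation.size
  omega

/-- The form used for the lower bound. -/
theorem rst_exists [Finite G] (hm : ∀ g h, pr (g * h) = pr g + pr h) (ho : Function.Surjective pr)
    (R : Refutation T P) (B : ℕ)
    (hR : ∀ Λ ∈ R.lines, ∃ H : Subgroup G, H ≤ stL R.C ρ Λ ∧ Nat.card (Vs pr H) ≤ B) :
    ∃ R' : Refutation T P, R'.size = R.size ∧
      (∀ a, Nat.card (Vs pr (stN R'.C ρ a)) ≤ 2 * B * R.size) ∧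
      ∀ Λ ∈ R'.lines, Nat.card (Vs pr (stL R'.C ρ Λ)) ≤ B := by
  have h1 := rst_spaces (ρ := ρ) hm ho R B (fun Λ hΛ => by
    obtain ⟨H, h1, h2⟩ := hR Λ hΛ
    exact ⟨H, fun g hg x hx => (h1 hg).1 x hx, h2⟩)
  refine ⟨rst R, rfl, fun a => (h1.1 a).trans ?_, h1.2⟩
  have h2 := size_pos R
  nlinarith [Nat.zero_le B]

end

end Pool.Agent.H16.LE
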