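import Pool.Agent.H42.CS.Defs

/-!
# Images of formulas under permutations of the points

`Img C g a b`: the formula below the node `b` is the image of the formula below the node `a` under the
map `g` of the points, up to the order of the members of the gates. `ImgS C g X Y`: the same for sets of
signed nodes. Nothing is asked of the circuit as a whole (no action on its nodes).
-/

set_option autoImplicit false

namespace Pool.Agent.H16.LE

open Pool.Agent.H42.CS (Ax Atom Lit Gate Circuit Step Refutation)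

/-- The image of an atom. -/
def mapV {Rel : ℕ → Type} {P : Type} (f : P → P) (v : Atom Rel P) : Atom Rel P :=
  ⟨v.1, v.2.1, fun i => f (v.2.2 i)⟩

/-- The formula below the node `b` is the image of the formula below the node `a` under `g`, up to
the order of the members of the gates. -/
inductive Img {Rel : ℕ → Type} {P : Type} (C : Circuit Rel P) (g : P → P) : C.N → C.N → Prop
  | var {a b : C.N} {v : Atom Rel P} : C.gate a = .var v → C.gate b = .var (mapV g v) → Img C g a b
  | and {a b : C.N} {S S' : Set (Lit C.N)} (β : Lit C.N → Lit C.N) : C.gate a = .and S →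
      C.gate b = .and S' → Set.BijOn β S S' → (∀ x ∈ S, (β x).pos = x.pos) →
      (∀ x ∈ S, Img C g x.node (β x).node) → Img C g a b
  | sym {a b : C.N} {A : Set ℕ} {S S' : Set (Lit C.N)} (β : Lit C.N → Lit C.N) :
      C.gate a = .sym A S → C.gate b = .sym A S' → Set.BijOn β S S' → (∀ x ∈ S, (β x).pos = x.pos) →
      (∀ x ∈ S, Img C g x.node (β x).node) → Img C g a b

/-- The set `Y` of signed nodes is the image of the set `X` under `g`. -/
def ImgS {Rel : ℕ → Type} {P : Type} (C : Circuit Rel P) (g : P → P) (X Y : Set (Lit C.N)) : Prop :=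
  ∃ β : Lit C.N → Lit C.N, Set.BijOn β X Y ∧ (∀ x ∈ X, (β x).pos = x.pos) ∧
    ∀ x ∈ X, Img C g x.node (β x).node

section

variable {Rel : ℕ → Type} {P : Type} {C : Circuit Rel P}

theorem mapV_mapV (f g : P → P) (v : Atom Rel P) : mapV f (mapV g v) = mapV (fun x => f (g x)) v := rfl

theorem mapV_id (v : Atom Rel P) : mapV (fun x => x) v = v := rfl

theorem img_var {g : P → P} {a b : C.N} (h : Img C g a b) {v : Atom Rel P} (ha : C.gate a = .var v) :
    C.gate b = .var (mapV g v) := by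
  cases h with
  | var h1 h2 =>
    rw [ha] at h1
    rw [h2, ← Gate.var.inj h1]
  | and β h1 => rw [ha] at h1; cases h1
  | sym β h1 => rw [ha] at h1; cases h1

theorem img_and {g : P → P} {a b : C.N} (h : Img C g a b) {S : Set (Lit C.N)} (ha : C.gate a = .and S) :
    ∃ S', C.gate b = .and S' ∧ ImgS C g S S' := by
  cases h with
  | var h1 => rw [ha] at h1; cases h1
  | @and _ _ S1 S' β h1 h2 h3 h4 h5 =>
    rw [ha] at h1
    have h6 := Gate.and.inj h1
    subst h6
    exact ⟨S', h2, β, h3, h4, h5⟩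
  | sym β h1 => rw [ha] at h1; cases h1

theorem img_sym {g : P → P} {a b : C.N} (h : Img C g a b) {A : Set ℕ} {S : Set (Lit C.N)}
    (ha : C.gate a = .sym A S) : ∃ S', C.gate b = .sym A S' ∧ ImgS C g S S' := by
  cases h with
  | var h1 => rw [ha] at h1; cases h1
  | and β h1 => rw [ha] at h1; cases h1
  | @sym _ _ A1 S1 S' β h1 h2 h3 h4 h5 =>
    rw [ha] at h1
    obtain ⟨h6, h7⟩ := Gate.sym.inj h1
    subst h6
    subst h7
    exact ⟨S', h2, β, h3, h4, h5⟩

theorem img_of_and {g : P → P} {a b : C.N} {S S' : Set (Lit C.N)} (ha : C.gate a = .and S)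
    (hb : C.gate b = .and S') (h : ImgS C g S S') : Img C g a b := by
  obtain ⟨β, h1, h2, h3⟩ := h
  exact Img.and β ha hb h1 h2 h3

theorem img_of_sym {g : P → P} {a b : C.N} {A : Set ℕ} {S S' : Set (Lit C.N)} (ha : C.gate a = .sym A S)
    (hb : C.gate b = .sym A S') (h : ImgS C g S S') : Img C g a b := by
  obtain ⟨β, h1, h2, h3⟩ := h
  exact Img.sym β ha hb h1 h2 h3

/-- Induction on the level. -/
private theorem rk_ind {p : C.N → Prop} (h : ∀ a, (∀ b, C.rank b < C.rank a → p b) → p a) (a : C.N) :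
    p a := by
  have key : ∀ m : ℕ, ∀ a, C.rank a < m → p a := by
    intro m
    induction m with
    | zero => intro a ha; exact absurd ha (Nat.not_lt_zero _)
    | succ m ih =>
      intro a ha
      exact h a fun b hb => ih b (by omega)
  exact key (C.rank a + 1) a (Nat.lt_succ_self _)

theorem img_refl (a : C.N) : Img C (fun x => x) a a := by
  refine rk_ind (p := fun a => Img C (fun x => x) a a) (fun a ih => ?_) a
  rcases hg : C.gate a with v | S | ⟨A, S⟩
  · exact Img.var hg hg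
  · refine Img.and (fun x => x) hg hg (Set.bijOn_id S) (fun _ _ => rfl) fun x hx => ?_
    exact ih x.node (C.rank_lt a x (by rw [hg]; exact hx))
  · refine Img.sym (fun x => x) hg hg (Set.bijOn_id S) (fun _ _ => rfl) fun x hx => ?_
    exact ih x.node (C.rank_lt a x (by rw [hg]; exact hx))

theorem img_trans {g h : P → P} {a b c : C.N} (h1 : Img C g a b) (h2 : Img C h b c) :
    Img C (fun x => h (g x)) a c := by
  refine rk_ind (p := fun a => ∀ b c : C.N, Img C g a b → Img C h b c → Img C (fun x => h (g x)) a c)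
    (fun a ih => ?_) a b c h1 h2
  intro b c h1 h2
  rcases hg : C.gate a with v | S | ⟨A, S⟩
  · exact Img.var hg (img_var h2 (img_var h1 hg))
  · obtain ⟨S', k1, β, k2, k3, k4⟩ := img_and h1 hg
    obtain ⟨S'', l1, β', l2, l3, l4⟩ := img_and h2 k1
    refine Img.and (fun x => β' (β x)) hg l1 (l2.comp k2) (fun x hx => ?_) fun x hx => ?_
    · rw [l3 _ (k2.mapsTo hx), k3 x hx]
    · exact ih x.node (C.rank_lt a x (by rw [hg]; exact hx)) _ _ (k4 x hx) (l4 _ (k2.mapsTo hx))
  · obtain ⟨S', k1, β, k2, k3, k4⟩ := img_sym h1 hg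
    obtain ⟨S'', l1, β', l2, l3, l4⟩ := img_sym h2 k1
    refine Img.sym (fun x => β' (β x)) hg l1 (l2.comp k2) (fun x hx => ?_) fun x hx => ?_
    · rw [l3 _ (k2.mapsTo hx), k3 x hx]
    · exact ih x.node (C.rank_lt a x (by rw [hg]; exact hx)) _ _ (k4 x hx) (l4 _ (k2.mapsTo hx))

open Classical in
private theorem bij_inv {X : Type} {β : X → X} {S S' : Set X} (h : Set.BijOn β S S') :
    ∃ γ : X → X, Set.BijOn γ S' S ∧ ∀ y ∈ S', β (γ y) = y := by
  obtain ⟨γ, hγ⟩ : ∃ γ : X → X, γ = fun y => if h : ∃ x ∈ S, β x = y then h.choose else y := ⟨_, rfl⟩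
  have h1 : ∀ y ∈ S', γ y ∈ S ∧ β (γ y) = y := by
    intro y hy
    obtain ⟨x, hx, hxy⟩ := h.surjOn hy
    have h2 : ∃ x ∈ S, β x = y := ⟨x, hx, hxy⟩
    rw [hγ]
    simp only [dif_pos h2]
    exact h2.choose_spec
  refine ⟨γ, ⟨fun y hy => (h1 y hy).1, ?_, ?_⟩, fun y hy => (h1 y hy).2⟩
  · intro y hy z hz hyz
    rw [← (h1 y hy).2, hyz, (h1 z hz).2]
  · intro x hx
    refine ⟨β x, h.mapsTo hx, ?_⟩
    exact h.injOn (h1 _ (h.mapsTo hx)).1 hx (h1 _ (h.mapsTo hx)).2

theorem img_symm {g h : P → P} (hg : ∀ x, h (g x) = x) {a b : C.N} (h1 : Img C g a b) : Img C h b a := by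
  classical
  refine rk_ind (p := fun a => ∀ b : C.N, Img C g a b → Img C h b a) (fun a ih => ?_) a b h1
  intro b h1
  rcases hga : C.gate a with v | S | ⟨A, S⟩
  · refine Img.var (img_var h1 hga) ?_
    rw [hga, mapV_mapV]
    have h2 : (fun x => h (g x)) = fun x : P => x := funext hg
    rw [h2, mapV_id]
  · obtain ⟨S', k1, β, k2, k3, k4⟩ := img_and h1 hga
    obtain ⟨γ, hb, hinv⟩ := bij_inv k2
    refine Img.and γ k1 hga hb (fun y hy => ?_) fun y hy => ?_
    · have h2 := k3 (γ y) (hb.mapsTo hy)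
      rw [hinv y hy] at h2
      exact h2.symm
    · have h2 := k4 (γ y) (hb.mapsTo hy)
      rw [hinv y hy] at h2
      exact ih (γ y).node (C.rank_lt a _ (by rw [hga]; exact hb.mapsTo hy)) _ h2
  · obtain ⟨S', k1, β, k2, k3, k4⟩ := img_sym h1 hga
    obtain ⟨γ, hb, hinv⟩ := bij_inv k2
    refine Img.sym γ k1 hga hb (fun y hy => ?_) fun y hy => ?_
    · have h2 := k3 (γ y) (hb.mapsTo hy)
      rw [hinv y hy] at h2
      exact h2.symm
    · have h2 := k4 (γ y) (hb.mapsTo hy)
      rw [hinv y hy] at h2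
      exact ih (γ y).node (C.rank_lt a _ (by rw [hga]; exact hb.mapsTo hy)) _ h2

theorem imgS_refl (X : Set (Lit C.N)) : ImgS C (fun x => x) X X :=
  ⟨fun x => x, Set.bijOn_id X, fun _ _ => rfl, fun x _ => img_refl x.node⟩

theorem imgS_trans {g h : P → P} {X Y Z : Set (Lit C.N)} (h1 : ImgS C g X Y) (h2 : ImgS C h Y Z) :
    ImgS C (fun x => h (g x)) X Z := by
  obtain ⟨β, k2, k3, k4⟩ := h1
  obtain ⟨β', l2, l3, l4⟩ := h2
  refine ⟨fun x => β' (β x), l2.comp k2, fun x hx => ?_, fun x hx => ?_⟩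
  · rw [l3 _ (k2.mapsTo hx), k3 x hx]
  · exact img_trans (k4 x hx) (l4 _ (k2.mapsTo hx))

theorem imgS_symm {g h : P → P} (hg : ∀ x, h (g x) = x) {X Y : Set (Lit C.N)} (h1 : ImgS C g X Y) :
    ImgS C h Y X := by
  classical
  obtain ⟨β, k2, k3, k4⟩ := h1
  obtain ⟨γ, hb, hinv⟩ := bij_inv k2
  refine ⟨γ, hb, fun y hy => ?_, fun y hy => ?_⟩
  · have h2 := k3 (γ y) (hb.mapsTo hy)
    rw [hinv y hy] at h2
    exact h2.symm
  · have h2 := k4 (γ y) (hb.mapsTo hy)
    rw [hinv y hy] at h2
    exact img_symm hg h2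

end

end Pool.Agent.H16.LE
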