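import Pool.Agent.H16.LE.Eng

/-!
# Nodes below the lines

`Bel C Λ a`: the node `a` occurs in the formulas of the line `Λ`. `rstC R`: the circuit of `R` in which the
nodes that occur in no line get the gate `and ∅`; `rst R`: the refutation with this circuit. Images are
the same for the nodes which occur in lines.
-/

set_option autoImplicit false
set_option linter.unusedSectionVars false
set_option linter.unusedVariables false

namespace Pool.Agent.H16.LE

open Pool.Agent.H42.CS (Ax Atom Lit Gate Circuit Step Refutation)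

/-- The node occurs in the formulas of the line `Λ`. -/
inductive Bel {Rel : ℕ → Type} {P : Type} (C : Circuit Rel P) (Λ : Set (Lit C.N)) : C.N → Prop
  | mem {x : Lit C.N} : x ∈ Λ → Bel C Λ x.node
  | child {a : C.N} {x : Lit C.N} : Bel C Λ a → x ∈ (C.gate a).children → Bel C Λ x.node

variable {Rel : ℕ → Type} {P : Type} {T : Set (Ax Rel)}

/-- The node occurs in some line. -/
def BelR (R : Refutation T P) (a : R.C.N) : Prop := ∃ Λ ∈ R.lines, Bel R.C Λ a

open Classical in
/-- The circuit in which the nodes that occur in no line are trivial. -/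
noncomputable def rstC (R : Refutation T P) : Circuit Rel P where
  N := R.C.N
  gate a := if BelR R a then R.C.gate a else .and ∅
  rank := R.C.rank
  rank_lt := by
    intro a x hx
    by_cases h : BelR R a
    · rw [if_pos h] at hx
      exact R.C.rank_lt a x hx
    · rw [if_neg h] at hx
      exact absurd hx (Set.notMem_empty x)

open Classical in
theorem rst_pos (R : Refutation T P) {a : R.C.N} (h : BelR R a) : (rstC R).gate a = R.C.gate a := by
  show (if BelR R a then R.C.gate a else .and ∅) = _
  rw [if_pos h]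

open Classical in
theorem rst_neg (R : Refutation T P) {a : R.C.N} (h : ¬ BelR R a) : (rstC R).gate a = .and ∅ := by
  show (if BelR R a then R.C.gate a else .and ∅) = _
  rw [if_neg h]
  rfl

theorem belR_mem (R : Refutation T P) {Λ : Set (Lit R.C.N)} (hΛ : Λ ∈ R.lines) {x : Lit R.C.N} (hx : x ∈ Λ) :
    BelR R x.node := ⟨Λ, hΛ, Bel.mem hx⟩

theorem belR_child (R : Refutation T P) {a : R.C.N} (ha : BelR R a) {x : Lit R.C.N}
    (hx : x ∈ (R.C.gate a).children) : BelR R x.node := by
  obtain ⟨Λ, hΛ, h⟩ := ha
  exact ⟨Λ, hΛ, Bel.child h hx⟩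

theorem rst_step (R : Refutation T P) {Pr : Set (Set (Lit R.C.N))} {Λ : Set (Lit R.C.N)} (hΛ : Λ ∈ R.lines)
    (h : Step T R.C Pr Λ) : Step T (rstC R) Pr Λ := by
  have hm : ∀ {x : Lit R.C.N}, x ∈ Λ → (rstC R).gate x.node = R.C.gate x.node := fun hx =>
    rst_pos R (belR_mem R hΛ hx)
  cases h with
  | @hyp A v hA hx =>
    refine Step.hyp (v := v) hA fun x hx' => ?_
    obtain ⟨a, h1, h2⟩ := hx x hx'
    exact ⟨a, (hm h2).trans h1, h2⟩
  | ident hg ha hb => exact Step.ident ((hm ha).trans (hg.trans (hm hb).symm)) ha hb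
  | weak hΔ hsub => exact Step.weak hΔ hsub
  | cut h1 h2 => exact Step.cut h1 h2
  | andI hg ha hS => exact Step.andI ((hm ha).trans hg) ha hS
  | andE hg ha h1 => exact Step.andE ((hm ha).trans hg) ha h1
  | @cover S h =>
    refine Step.cover (C := rstC R) (S := S) fun c hc => ?_
    obtain ⟨a, A, b, h1, h2, h3⟩ := h c hc
    exact ⟨a, A, b, (hm h3).trans h1, h2, h3⟩
  | unit hg ha hx => exact Step.unit ((hm ha).trans hg) ha hx
  | sum hB hd hp ha hc hpΛ haΛ =>
    refine Step.sum (fun b hb => ?_) hd ((hm hpΛ).trans hp) ((hm haΛ).trans ha) hc hpΛ haΛ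
    have h1 := belR_child R (belR_mem R hΛ hpΛ) (x := ⟨b, true⟩) (by
      show _ ∈ (R.C.gate _).children
      rw [hp]
      exact ⟨b, hb, rfl⟩)
    exact (rst_pos R h1).trans (hB b hb)
  | @dist a F J B u A A' hF hJ hB hu ha ht huΛ haΛ =>
    refine Step.dist hF hJ (fun j hj X hX => ?_) (fun j hj => (hm (huΛ j hj)).trans (hu j hj))
      ((hm haΛ).trans ha) ht huΛ haΛ
    have h1 := belR_child R (belR_mem R hΛ (huΛ j hj)) (x := ⟨B j X, true⟩) (by
      show _ ∈ (R.C.gate (u j)).children
      rw [hu j hj]
      exact ⟨X, hX, rfl⟩)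
    exact (rst_pos R h1).trans (hB j hj X hX)

/-- The refutation with the restricted circuit. -/
noncomputable def rst (R : Refutation T P) : Refutation T P where
  C := rstC R
  lines := R.lines
  order := R.order
  step := fun Λ hΛ => rst_step R hΛ (R.step Λ hΛ)
  empty_mem := R.empty_mem

theorem rst_size (R : Refutation T P) : (rst R).size = R.size := rfl

/-- Images of nodes which occur in lines. -/
theorem rst_img (R : Refutation T P) {g : P → P} {a b : R.C.N} (h : Img R.C g a b) (ha : BelR R a)
    (hb : BelR R b) : Img (rstC R) g a b := by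
  induction h with
  | var h1 h2 => exact Img.var ((rst_pos R ha).trans h1) ((rst_pos R hb).trans h2)
  | @and a b S S' β h1 h2 h3 h4 h5 ih =>
    refine Img.and (C := rstC R) β ((rst_pos R ha).trans h1) ((rst_pos R hb).trans h2) h3 h4 fun x hx => ?_
    exact ih x hx (belR_child R ha (by rw [h1]; exact hx)) (belR_child R hb (by rw [h2]; exact h3.mapsTo hx))
  | @sym a b A S S' β h1 h2 h3 h4 h5 ih =>
    refine Img.sym (C := rstC R) β ((rst_pos R ha).trans h1) ((rst_pos R hb).trans h2) h3 h4 fun x hx => ?_
    exact ih x hx (belR_child R ha (by rw [h1]; exact hx)) (belR_child R hb (by rw [h2]; exact h3.mapsTo hx))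

/-- Trivial nodes are their own images. -/
theorem rst_triv (R : Refutation T P) (g : P → P) {a : R.C.N} (ha : ¬ BelR R a) : Img (rstC R) g a a :=
  Img.and (C := rstC R) id (rst_neg R ha) (rst_neg R ha) (Set.bijOn_empty id)
    (fun x hx => absurd hx (Set.notMem_empty x)) (fun x hx => absurd hx (Set.notMem_empty x))

end Pool.Agent.H16.LE
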