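import Pool.Agent.H16.LE.Cnt

/-!
# Soundness of the simple rules, local version

As `H79/CQ/Ru1`.
-/

set_option autoImplicit false
set_option linter.unusedSectionVars false
set_option linter.unusedVariables false

namespace Pool.Agent.H16.LE

open Pool.Agent.H42.CS (Ax Atom Lit Gate Circuit Step Refutation)
open Pool.Agent.H79.CQ (Gad Wd sh Vs Gad.ext Gad.Agr Gad.IsW Gad.Tame nm sh_sh Vs_anti Vs_perp Vs_conj Vs_top)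

variable {p : ℕ} [hp : Fact p.Prime]

namespace Eng

variable {Rel : ℕ → Type} {P K G : Type} [Fintype K] [Group G] (E : Eng p Rel P K G)

omit [Fintype K] in
private theorem ru1_mono {g : Gad p K} {U U' : Submodule (ZMod p) (K → ZMod p)} (hle : U ≤ U')
    {f f' : Wd p K} (h : g.Agr U' f f') : g.Agr U f f' := fun y hy hD => h y (hle hy) hD

omit [Fintype K] in
private theorem ru1_trans {g : Gad p K} {U : Submodule (ZMod p) (K → ZMod p)}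
    {f f' f'' : Wd p K} (h : g.Agr U f f') (h' : g.Agr U f' f'') : g.Agr U f f'' :=
  fun y hy hD => (h y hy hD).trans (h' y hy hD)

private theorem ru1_t5 {U : Submodule (ZMod p) (K → ZMod p)} (h : E.Sm 5 U) : E.toGad.Tame U :=
  E.Sm_tame (E.Sm_mono (by norm_num) le_rfl h)

private theorem ru1_t6 {U : Submodule (ZMod p) (K → ZMod p)} (h : E.Sm 5 U) (a : E.C.N) :
    E.toGad.Tame (U ⊔ E.Vn a) :=
  E.Sm_tame (E.Sm_sup h (E.Sm_Vn a))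

private theorem ru1_T {a : E.C.N} {f : Wd p K} : E.tr ⟨a, true⟩ f ↔ E.val a f := by
  unfold tr
  simp

private theorem ru1_F {a : E.C.N} {f : Wd p K} : E.tr ⟨a, false⟩ f ↔ ¬ E.val a f := by
  unfold tr
  simp

theorem sound_hyp {Λ : Set (Lit E.C.N)} (hΛ : E.Vl Λ ∈ E.fam) {A : Ax Rel} (hA : E.AxOK A)
    (v : Fin A.k → P) (h : ∀ x ∈ A.inst v, ∃ a, E.C.gate a = .var x.1 ∧ ⟨a, x.2⟩ ∈ Λ) :
    E.Tru Λ := by
  obtain ⟨Y, hY, hYp⟩ := hA v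
  refine E.Tru_of hΛ fun f hf => ?_
  have hS : E.Sm 5 (E.Vl Λ ⊔ Y) :=
    E.Sm_mono (by norm_num) le_rfl (E.Sm_sup (E.Sm_mem hΛ) (E.Sm_mem hY))
  have hT := E.ru1_t5 hS
  obtain ⟨f', hf', ha⟩ := E.toGad.ext_exists (le_sup_left : E.Vl Λ ≤ E.Vl Λ ⊔ Y) hT hf
  obtain ⟨x, hx, hx2⟩ := hYp _ f' le_sup_right hT hf'
  obtain ⟨a, hga, hΛa⟩ := h x hx
  refine ⟨_, f', le_sup_left, hS, hf', ha, ⟨a, x.2⟩, hΛa, ?_⟩
  have h1 := E.toGad.ext_agr (le_sup_left : E.Vl Λ ⊔ Y ≤ E.Vl Λ ⊔ Y ⊔ E.Vn a)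
    (E.ru1_t6 hS a) hf'
  have h2 := hx2 _ (ru1_mono (le_sup_right : Y ≤ E.Vl Λ ⊔ Y) h1)
  show E.val a _ ↔ x.2 = true
  rw [E.val_var hga]
  exact h2

theorem sound_ident {Λ : Set (Lit E.C.N)} (hΛ : E.Vl Λ ∈ E.fam) {a b : E.C.N}
    (h : E.C.gate a = E.C.gate b) (ha : ⟨a, true⟩ ∈ Λ) (hb : ⟨b, false⟩ ∈ Λ) : E.Tru Λ := by
  refine E.Tru_of hΛ fun f hf => ?_
  have hS : E.Sm 5 (E.Vl Λ ⊔ E.Vn a ⊔ E.Vn b) :=
    E.Sm_mono (by norm_num) le_rfl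
      (E.Sm_sup (E.Sm_sup (E.Sm_mem hΛ) (E.Sm_Vn a)) (E.Sm_Vn b))
  have hT := E.ru1_t5 hS
  have hle : E.Vl Λ ≤ E.Vl Λ ⊔ E.Vn a ⊔ E.Vn b := le_sup_left.trans le_sup_left
  have hla : E.Vn a ≤ E.Vl Λ ⊔ E.Vn a ⊔ E.Vn b := le_sup_right.trans le_sup_left
  have hlb : E.Vn b ≤ E.Vl Λ ⊔ E.Vn a ⊔ E.Vn b := le_sup_right
  obtain ⟨f', hf', hag⟩ := E.toGad.ext_exists hle hT hf
  have hab : E.val a f' ↔ E.val b f' := by
    cases hg : E.C.gate b with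
    | var v => rw [E.val_var (h.trans hg), E.val_var hg]
    | and S => rw [E.val_and_iff (h.trans hg) hla hS hf', E.val_and_iff hg hlb hS hf']
    | sym A S => rw [E.val_sym_iff (h.trans hg) hla hS hf', E.val_sym_iff hg hlb hS hf']
  by_cases hv : E.val a f'
  · refine ⟨_, f', hle, hS, hf', hag, ⟨a, true⟩, ha, ?_⟩
    rw [E.tr_ext (x := ⟨a, true⟩) hla hT hf']
    exact E.ru1_T.2 hv
  · refine ⟨_, f', hle, hS, hf', hag, ⟨b, false⟩, hb, ?_⟩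
    rw [E.tr_ext (x := ⟨b, false⟩) hlb hT hf']
    exact E.ru1_F.2 fun h1 => hv (hab.2 h1)

theorem sound_weak {Λ Δ : Set (Lit E.C.N)} (hΛ : E.Vl Λ ∈ E.fam) (hΔ : E.Vl Δ ∈ E.fam)
    (hT : E.Tru Δ) (h : Δ ⊆ Λ) : E.Tru Λ := by
  refine E.Tru_of hΛ fun f hf => ?_
  have hS : E.Sm 5 (E.Vl Λ ⊔ E.Vl Δ) :=
    E.Sm_mono (by norm_num) le_rfl (E.Sm_sup (E.Sm_mem hΛ) (E.Sm_mem hΔ))
  obtain ⟨f', hf', hag⟩ := E.toGad.ext_exists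
    (le_sup_left : E.Vl Λ ≤ E.Vl Λ ⊔ E.Vl Δ) (E.ru1_t5 hS) hf
  obtain ⟨x, hx, hx2⟩ := E.Tru_at hT hΔ (le_sup_right : E.Vl Δ ≤ E.Vl Λ ⊔ E.Vl Δ) hS hf'
  exact ⟨_, f', le_sup_left, hS, hf', hag, x, h hx, hx2⟩

theorem sound_cut {Λ : Set (Lit E.C.N)} (hΛ : E.Vl Λ ∈ E.fam) {a : E.C.N}
    (h1 : E.Vl (insert ⟨a, true⟩ Λ) ∈ E.fam) (hT1 : E.Tru (insert ⟨a, true⟩ Λ))
    (h2 : E.Vl (insert ⟨a, false⟩ Λ) ∈ E.fam) (hT2 : E.Tru (insert ⟨a, false⟩ Λ)) :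
    E.Tru Λ := by
  refine E.Tru_of hΛ fun f hf => ?_
  obtain ⟨U, hU⟩ : ∃ U, U = E.Vl Λ ⊔ E.Vn a ⊔ E.Vl (insert ⟨a, true⟩ Λ) ⊔
      E.Vl (insert ⟨a, false⟩ Λ) := ⟨_, rfl⟩
  have hS : E.Sm 5 U := by
    rw [hU]
    exact E.Sm_mono (by norm_num) le_rfl (E.Sm_sup (E.Sm_sup
      (E.Sm_sup (E.Sm_mem hΛ) (E.Sm_Vn a)) (E.Sm_mem h1)) (E.Sm_mem h2))
  have hT := E.ru1_t5 hS
  have hle : E.Vl Λ ≤ U := by
    rw [hU]
    exact (le_sup_left.trans le_sup_left).trans le_sup_left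
  have hla : E.Vn a ≤ U := by
    rw [hU]
    exact (le_sup_right.trans le_sup_left).trans le_sup_left
  have hl1 : E.Vl (insert ⟨a, true⟩ Λ) ≤ U := by
    rw [hU]
    exact le_sup_right.trans le_sup_left
  have hl2 : E.Vl (insert ⟨a, false⟩ Λ) ≤ U := by
    rw [hU]
    exact le_sup_right
  obtain ⟨f', hf', hag⟩ := E.toGad.ext_exists hle hT hf
  by_cases hv : E.val a f'
  · obtain ⟨x, hx, hx2⟩ := E.Tru_at hT2 h2 hl2 hS hf'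
    rcases hx with rfl | hx
    · rw [E.tr_ext (x := ⟨a, false⟩) hla hT hf'] at hx2
      exact absurd hv (E.ru1_F.1 hx2)
    · exact ⟨_, f', hle, hS, hf', hag, x, hx, hx2⟩
  · obtain ⟨x, hx, hx2⟩ := E.Tru_at hT1 h1 hl1 hS hf'
    rcases hx with rfl | hx
    · rw [E.tr_ext (x := ⟨a, true⟩) hla hT hf'] at hx2
      exact absurd (E.ru1_T.1 hx2) hv
    · exact ⟨_, f', hle, hS, hf', hag, x, hx, hx2⟩

theorem sound_andI {Λ S : Set (Lit E.C.N)} (hΛ : E.Vl Λ ∈ E.fam) {a : E.C.N}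
    (h : E.C.gate a = .and S) (ha : ⟨a, true⟩ ∈ Λ)
    (hS : ∀ x ∈ S, E.Vl (insert x Λ) ∈ E.fam ∧ E.Tru (insert x Λ)) : E.Tru Λ := by
  intro f hf
  by_contra hno
  have hSm : E.Sm 5 (E.Vl Λ ⊔ E.Vn a) :=
    E.Sm_mono (by norm_num) le_rfl (E.Sm_sup (E.Sm_mem hΛ) (E.Sm_Vn a))
  have hT := E.ru1_t5 hSm
  obtain ⟨f', hf', hag⟩ := E.toGad.ext_exists
    (le_sup_left : E.Vl Λ ≤ E.Vl Λ ⊔ E.Vn a) hT hf
  have hva : ¬ E.val a f' := by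
    intro hv
    apply hno
    rw [E.line_iff hΛ (le_sup_left : E.Vl Λ ≤ E.Vl Λ ⊔ E.Vn a) hSm hf hf' hag]
    refine ⟨⟨a, true⟩, ha, ?_⟩
    rw [E.tr_ext (x := ⟨a, true⟩) le_sup_right hT hf']
    exact E.ru1_T.2 hv
  rw [E.val_and_iff h (le_sup_right : E.Vn a ≤ E.Vl Λ ⊔ E.Vn a) hSm hf'] at hva
  push Not at hva
  obtain ⟨x, hx, hxt⟩ := hva
  obtain ⟨hD1, hD2⟩ := hS x hx
  obtain ⟨U, hU⟩ : ∃ U, U = E.Vl Λ ⊔ E.Vn a := ⟨_, rfl⟩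
  rw [← hU] at hSm hT hf' hxt
  have hleU : E.Vl Λ ≤ U := by rw [hU]; exact le_sup_left
  obtain ⟨g, hg⟩ : ∃ g, g = E.toGad.ext U (U ⊔ E.Vn x.node) f' := ⟨_, rfl⟩
  have hgW : E.toGad.IsW (U ⊔ E.Vn x.node) g := by
    rw [hg]
    exact E.toGad.ext_isW le_sup_left (E.ru1_t6 hSm x.node) hf'
  have hgA : E.toGad.Agr U f' g := by
    rw [hg]
    exact E.toGad.ext_agr le_sup_left (E.ru1_t6 hSm x.node) hf'
  rw [← hg] at hxt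
  obtain ⟨U', hU'⟩ : ∃ U', U' = U ⊔ E.Vn x.node ⊔ E.Vl (insert x Λ) := ⟨_, rfl⟩
  have hS' : E.Sm 5 U' := by
    rw [hU', hU]
    exact E.Sm_mono (by norm_num) le_rfl (E.Sm_sup (E.Sm_sup
      (E.Sm_sup (E.Sm_mem hΛ) (E.Sm_Vn a)) (E.Sm_Vn x.node)) (E.Sm_mem hD1))
  have hT' := E.ru1_t5 hS'
  have hle1 : U ⊔ E.Vn x.node ≤ U' := by rw [hU']; exact le_sup_left
  have hle2 : E.Vl (insert x Λ) ≤ U' := by rw [hU']; exact le_sup_right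
  have hlx : E.Vn x.node ≤ U' := le_sup_right.trans hle1
  have hleΛ : E.Vl Λ ≤ U' := (hleU.trans le_sup_left).trans hle1
  obtain ⟨g', hg', hgg⟩ := E.toGad.ext_exists hle1 hT' hgW
  obtain ⟨y, hy, hy2⟩ := E.Tru_at hD2 hD1 hle2 hS' hg'
  rcases hy with rfl | hy
  · rw [E.tr_ext hlx hT' hg'] at hy2
    apply hxt
    rw [E.tr_loc (E.toGad.isW_mono le_sup_right hgW) (ru1_mono le_sup_right hgg)]
    exact hy2
  · apply hno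
    have h5 : E.toGad.Agr (E.Vl Λ) f g' := ru1_trans hag (ru1_trans (ru1_mono hleU hgA)
      (ru1_mono (hleU.trans le_sup_left) hgg))
    rw [E.line_iff hΛ hleΛ hS' hf hg' h5]
    exact ⟨y, hy, hy2⟩

theorem sound_andE {Λ S : Set (Lit E.C.N)} (hΛ : E.Vl Λ ∈ E.fam) {a : E.C.N}
    (h : E.C.gate a = .and S) (ha : ⟨a, false⟩ ∈ Λ) (h1 : E.Vl (Λ ∪ Lit.neg '' S) ∈ E.fam)
    (hT : E.Tru (Λ ∪ Lit.neg '' S)) : E.Tru Λ := by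
  refine E.Tru_of hΛ fun f hf => ?_
  obtain ⟨U, hU⟩ : ∃ U, U = E.Vl Λ ⊔ E.Vn a ⊔ E.Vl (Λ ∪ Lit.neg '' S) := ⟨_, rfl⟩
  have hS : E.Sm 5 U := by
    rw [hU]
    exact E.Sm_mono (by norm_num) le_rfl (E.Sm_sup
      (E.Sm_sup (E.Sm_mem hΛ) (E.Sm_Vn a)) (E.Sm_mem h1))
  have hTU := E.ru1_t5 hS
  have hle : E.Vl Λ ≤ U := by
    rw [hU]
    exact le_sup_left.trans le_sup_left
  have hla : E.Vn a ≤ U := by
    rw [hU]
    exact le_sup_right.trans le_sup_left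
  have hl1 : E.Vl (Λ ∪ Lit.neg '' S) ≤ U := by
    rw [hU]
    exact le_sup_right
  obtain ⟨f', hf', hag⟩ := E.toGad.ext_exists hle hTU hf
  by_cases hv : E.val a f'
  · rw [E.val_and_iff h hla hS hf'] at hv
    obtain ⟨y, hy, hy2⟩ := E.Tru_at hT h1 hl1 hS hf'
    rcases hy with hy | ⟨x, hx, rfl⟩
    · exact ⟨_, f', hle, hS, hf', hag, y, hy, hy2⟩
    · exact absurd (hv x hx) ((E.tr_neg x _).1 hy2)
  · refine ⟨_, f', hle, hS, hf', hag, ⟨a, false⟩, ha, ?_⟩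
    rw [E.tr_ext (x := ⟨a, false⟩) hla hTU hf']
    exact E.ru1_F.2 hv

end Eng

end Pool.Agent.H16.LE
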