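import Pool.Agent.H16.LE.Cnt

/-!
# Soundness of the rules cover, unit and sum, local version

As `H79/CQ/Ru2`; in `sound_sum` a bijection of `B` comes from the stabiliser of the node `p`.
-/

set_option autoImplicit false
set_option linter.unusedSectionVars false
set_option linter.unusedVariables false

namespace Pool.Agent.H16.LE

open Pool.Agent.H42.CS (Ax Atom Lit Gate Circuit Step Refutation)
open Pool.Agent.H79.CQ (Gad Wd sh Vs Gad.ext Gad.Agr Gad.IsW Gad.Tame nm sh_sh Vs_anti Vs_perp Vs_conj Vs_top)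

variable {p : ℕ} [hp : Fact p.Prime]

namespace Eng

variable {Rel : ℕ → Type} {P K G : Type} [Fintype K] [Group G] (E : Eng p Rel P K G)

private theorem fin_lit {N : Type} [Finite N] : Finite (Lit N) :=
  Finite.of_injective (fun x : Lit N => (x.node, x.pos)) (by
    intro x y h
    exact Lit.ext (congrArg Prod.fst h) (congrArg Prod.snd h))

omit [Fintype K] in
private theorem agr_mono {g : Gad p K} {U U' : Submodule (ZMod p) (K → ZMod p)} (hle : U ≤ U') {f f' : Wd p K}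
    (h : g.Agr U' f f') : g.Agr U f f' := fun y hy hD => h y (hle hy) hD

omit [Fintype K] in
private theorem agr_trans {g : Gad p K} {U U' : Submodule (ZMod p) (K → ZMod p)} (hle : U ≤ U')
    {f f' f'' : Wd p K} (h : g.Agr U f f') (h' : g.Agr U' f' f'') : g.Agr U f f'' :=
  fun y hy hD => (h y hy hD).trans (h' y (hle hy) hD)

theorem sound_cover {Λ S : Set (Lit E.C.N)} (hΛ : E.Vl Λ ∈ E.fam)
    (h : ∀ c ≤ S.ncard, ∃ (a : E.C.N) (A : Set ℕ) (b : Bool),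
      E.C.gate a = .sym A S ∧ (c ∈ A ↔ b = true) ∧ ⟨a, b⟩ ∈ Λ) : E.Tru Λ := by
  have : Finite (Lit E.C.N) := fin_lit
  refine E.Tru_of hΛ fun f hf => ?_
  obtain ⟨a0, A0, b0, hg0, -, -⟩ := h 0 (Nat.zero_le _)
  obtain ⟨U, hU⟩ : ∃ U, U = E.Vl Λ ⊔ E.Vn a0 := ⟨_, rfl⟩
  have hU1 : E.Vl Λ ≤ U := by
    rw [hU]
    exact le_sup_left
  have hU2 : E.Vn a0 ≤ U := by
    rw [hU]
    exact le_sup_right
  have hS2 : E.Sm 2 U := by
    rw [hU]
    exact E.Sm_sup (E.Sm_mem hΛ) (E.Sm_Vn a0)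
  have hT : E.toGad.Tame U := E.Sm_tame (E.Sm_mono (by norm_num) le_rfl hS2)
  obtain ⟨f', hf', ha'⟩ := E.toGad.ext_exists hU1 hT hf
  obtain ⟨c, hc⟩ : ∃ c, c = E.cnt S U f' := ⟨_, rfl⟩
  have hcS : c ≤ S.ncard := by
    rw [hc]
    exact Set.ncard_le_ncard (fun x hx => hx.1) (Set.toFinite S)
  obtain ⟨a, A, b, hg, hcb, hm⟩ := h c hcS
  obtain ⟨U', hU'⟩ : ∃ U', U' = U ⊔ E.Vn a := ⟨_, rfl⟩
  have hU1' : U ≤ U' := by
    rw [hU']
    exact le_sup_left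
  have hU2' : E.Vn a ≤ U' := by
    rw [hU']
    exact le_sup_right
  have hS3 : E.Sm 3 U' := by
    rw [hU']
    exact E.Sm_sup hS2 (E.Sm_Vn a)
  have hT' : E.toGad.Tame U' := E.Sm_tame (E.Sm_mono (by norm_num) le_rfl hS3)
  obtain ⟨f'', hf'', ha''⟩ := E.toGad.ext_exists hU1' hT' hf'
  have hcnt : E.cnt S U f' = E.cnt S U' f'' :=
    E.cnt_eq (stN E.C E.ρ a0) S (E.stN_le_sym hg0) hU2 (hU2.trans hU1')
      (fun x _ => E.Sm_tame (E.Sm_mono (by norm_num) le_rfl (E.Sm_sup hS2 (E.Sm_Vn x.node))))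
      (fun x _ => E.Sm_tame (E.Sm_mono (by norm_num) le_rfl (E.Sm_sup hS3 (E.Sm_Vn x.node))))
      hf' hf'' (agr_mono hU2 ha'')
  have hS5 : E.Sm 5 U' := E.Sm_mono (by norm_num) le_rfl hS3
  refine ⟨U', f'', hU1.trans hU1', hS5, hf'', agr_trans hU1 ha' ha'', ⟨a, b⟩, hm, ?_⟩
  refine (E.tr_ext (x := ⟨a, b⟩) hU2' hT' hf'').2 ?_
  show E.val a f'' ↔ b = true
  rw [E.val_sym_iff hg hU2' hS5 hf'', ← hcnt, ← hc]
  exact hcb

theorem sound_unit {Λ : Set (Lit E.C.N)} (hΛ : E.Vl Λ ∈ E.fam) {a : E.C.N} {A : Set ℕ}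
    {x : Lit E.C.N} (h : E.C.gate a = .sym A {x}) (ha : ⟨a, true⟩ ∈ Λ)
    (hx : (1 ∈ A ∧ x.neg ∈ Λ) ∨ (0 ∈ A ∧ x ∈ Λ)) : E.Tru Λ := by
  have : Finite (Lit E.C.N) := fin_lit
  refine E.Tru_of hΛ fun f hf => ?_
  obtain ⟨U, hU⟩ : ∃ U, U = E.Vl Λ ⊔ E.Vn a ⊔ E.Vn x.node := ⟨_, rfl⟩
  have hU1 : E.Vl Λ ≤ U := by
    rw [hU]
    exact le_sup_left.trans le_sup_left
  have hU2 : E.Vn a ≤ U := by
    rw [hU]
    exact le_sup_right.trans le_sup_left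
  have hU3 : E.Vn x.node ≤ U := by
    rw [hU]
    exact le_sup_right
  have hS3 : E.Sm 3 U := by
    rw [hU]
    exact E.Sm_sup (E.Sm_sup (E.Sm_mem hΛ) (E.Sm_Vn a)) (E.Sm_Vn x.node)
  have hT : E.toGad.Tame U := E.Sm_tame (E.Sm_mono (by norm_num) le_rfl hS3)
  have hS5 : E.Sm 5 U := E.Sm_mono (by norm_num) le_rfl hS3
  obtain ⟨f', hf', ha'⟩ := E.toGad.ext_exists hU1 hT hf
  have hext := E.tr_ext (x := x) hU3 hT hf'
  by_cases ht : E.tr x f'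
  · have hcnt : E.cnt {x} U f' = 1 := by
      unfold cnt
      have h1 : {y | y ∈ ({x} : Set (Lit E.C.N)) ∧ E.tr y (E.toGad.ext U (U ⊔ E.Vn y.node) f')} =
          {x} := by
        ext y
        simp only [Set.mem_ofPred_eq, Set.mem_singleton_iff]
        refine ⟨fun h => h.1, fun h => ⟨h, ?_⟩⟩
        rw [h]
        exact hext.2 ht
      rw [h1, Set.ncard_singleton]
    rcases hx with ⟨h1, h2⟩ | ⟨h1, h2⟩
    · refine ⟨U, f', hU1, hS5, hf', ha', ⟨a, true⟩, ha, ?_⟩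
      refine (E.tr_ext (x := ⟨a, true⟩) hU2 hT hf').2 ?_
      show E.val a f' ↔ true = true
      rw [E.val_sym_iff h hU2 hS5 hf', hcnt]
      exact ⟨fun _ => rfl, fun _ => h1⟩
    · exact ⟨U, f', hU1, hS5, hf', ha', x, h2, hext.2 ht⟩
  · have hcnt : E.cnt {x} U f' = 0 := by
      unfold cnt
      have h1 : {y | y ∈ ({x} : Set (Lit E.C.N)) ∧ E.tr y (E.toGad.ext U (U ⊔ E.Vn y.node) f')} =
          ∅ := by
        ext y
        simp only [Set.mem_ofPred_eq, Set.mem_singleton_iff, Set.mem_empty_iff_false, iff_false]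
        rintro ⟨rfl, h3⟩
        exact ht (hext.1 h3)
      rw [h1, Set.ncard_empty]
    rcases hx with ⟨h1, h2⟩ | ⟨h1, h2⟩
    · refine ⟨U, f', hU1, hS5, hf', ha', x.neg, h2, ?_⟩
      rw [E.tr_neg]
      exact fun h3 => ht (hext.1 h3)
    · refine ⟨U, f', hU1, hS5, hf', ha', ⟨a, true⟩, ha, ?_⟩
      refine (E.tr_ext (x := ⟨a, true⟩) hU2 hT hf').2 ?_
      show E.val a f' ↔ true = true
      rw [E.val_sym_iff h hU2 hS5 hf', hcnt]
      exact ⟨fun _ => rfl, fun _ => h1⟩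

theorem sound_sum {Λ : Set (Lit E.C.N)} (hΛ : E.Vl Λ ∈ E.fam) {a p : E.C.N} {B : Set E.C.N}
    {A : E.C.N → Set ℕ} {A' : Set ℕ} {S : E.C.N → Set (Lit E.C.N)}
    (hB : ∀ b ∈ B, E.C.gate b = .sym (A b) (S b)) (hdis : B.PairwiseDisjoint S)
    (hp : E.C.gate p = .and ((fun b => ⟨b, true⟩) '' B))
    (ha : E.C.gate a = .sym A' (⋃ b ∈ B, S b))
    (hc : ∀ c : E.C.N → ℕ, (∀ b ∈ B, c b ∈ A b) → ∑ᶠ b ∈ B, c b ∈ A')
    (hpΛ : ⟨p, false⟩ ∈ Λ) (haΛ : ⟨a, true⟩ ∈ Λ) : E.Tru Λ := by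
  refine E.Tru_of hΛ fun f hf => ?_
  obtain ⟨U, hU⟩ : ∃ U, U = E.Vl Λ ⊔ E.Vn p ⊔ E.Vn a := ⟨_, rfl⟩
  have hU1 : E.Vl Λ ≤ U := by
    rw [hU]
    exact le_sup_left.trans le_sup_left
  have hU2 : E.Vn p ≤ U := by
    rw [hU]
    exact le_sup_right.trans le_sup_left
  have hU3 : E.Vn a ≤ U := by
    rw [hU]
    exact le_sup_right
  have hS3 : E.Sm 3 U := by
    rw [hU]
    exact E.Sm_sup (E.Sm_sup (E.Sm_mem hΛ) (E.Sm_Vn p)) (E.Sm_Vn a)
  have hT : E.toGad.Tame U := E.Sm_tame (E.Sm_mono (by norm_num) le_rfl hS3)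
  have hS5 : E.Sm 5 U := E.Sm_mono (by norm_num) le_rfl hS3
  obtain ⟨f', hf', ha'⟩ := E.toGad.ext_exists hU1 hT hf
  by_cases hv : E.val p f'
  · have h4 : ∀ b, E.Sm 4 (U ⊔ E.Vn b) := fun b => E.Sm_sup hS3 (E.Sm_Vn b)
    have hT4 : ∀ b, E.toGad.Tame (U ⊔ E.Vn b) := fun b =>
      E.Sm_tame (E.Sm_mono (by norm_num) le_rfl (h4 b))
    have hall := (E.val_and_iff hp hU2 hS5 hf').1 hv
    have hcA : ∀ b ∈ B, E.cnt (S b) (U ⊔ E.Vn b) (E.toGad.ext U (U ⊔ E.Vn b) f') ∈ A b := by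
      intro b hb
      have h5 : E.tr (⟨b, true⟩ : Lit E.C.N) (E.toGad.ext U (U ⊔ E.Vn b) f') :=
        hall ⟨b, true⟩ ⟨b, hb, rfl⟩
      have h6 : E.val b (E.toGad.ext U (U ⊔ E.Vn b) f') := h5.2 rfl
      exact (E.val_sym_iff (hB b hb) le_sup_right (E.Sm_mono (by norm_num) le_rfl (h4 b))
        (E.toGad.ext_isW le_sup_left (hT4 b) hf')).1 h6
    obtain ⟨X, hX⟩ : ∃ X : Set (Lit E.C.N), X = (fun b => (⟨b, true⟩ : Lit E.C.N)) '' B := ⟨_, rfl⟩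
    rw [← hX] at hp
    have hj : ∀ g ∈ stN E.C E.ρ p, _ := fun g hg => E.bj_spec (E.stN_le_and hp hg)
    have hXm : ∀ b, b ∈ B → (⟨b, true⟩ : Lit E.C.N) ∈ X := fun b hb => by
      rw [hX]
      exact ⟨b, hb, rfl⟩
    have hXn : ∀ x ∈ X, x.node ∈ B ∧ x = ⟨x.node, true⟩ := fun x hx => by
      rw [hX] at hx
      obtain ⟨b, hb, rfl⟩ := hx
      exact ⟨hb, rfl⟩
    have hbij : ∀ g ∈ stN E.C E.ρ p, Set.BijOn (fun b => (E.bj X g ⟨b, true⟩).node) B B := by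
      intro g hg
      obtain ⟨k1, -, -⟩ := hj g hg
      refine ⟨fun b hb => (hXn _ (k1.mapsTo (hXm b hb))).1, ?_, ?_⟩
      · intro b hb b' hb' he
        have e1 : (E.bj X g ⟨b, true⟩) = E.bj X g ⟨b', true⟩ := by
          rw [(hXn _ (k1.mapsTo (hXm b hb))).2, (hXn _ (k1.mapsTo (hXm b' hb'))).2]
          exact congrArg (fun z => (⟨z, true⟩ : Lit E.C.N)) he
        exact congrArg Lit.node (k1.injOn (hXm b hb) (hXm b' hb') e1)
      · intro b' hb'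
        obtain ⟨x, hx, e1⟩ := k1.surjOn (hXm b' hb')
        refine ⟨x.node, (hXn x hx).1, ?_⟩
        show (E.bj X g ⟨x.node, true⟩).node = b'
        rw [← (hXn x hx).2, e1]
    have hSact : ∀ g ∈ stN E.C E.ρ p, ∀ b ∈ B, ImgS E.C (E.ρ g) (S b) (S (E.bj X g ⟨b, true⟩).node) := by
      intro g hg b hb
      obtain ⟨k1, -, k3⟩ := hj g hg
      obtain ⟨S', h5, h6⟩ := img_sym (k3 _ (hXm b hb)) (hB b hb)
      rw [hB _ ((hbij g hg).mapsTo hb)] at h5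
      have h7 := (Gate.sym.inj h5).2
      rw [h7]
      exact h6
    have htwo := E.two (stN E.C E.ρ p) (fun g b => (E.bj X g ⟨b, true⟩).node) B (Set.toFinite B) hbij E.Vn
      (fun g hg b hb => E.Vn_img ((hj g hg).2.2 _ (hXm b hb))) S hSact hdis hU2 hf'
      (fun b _ => hT4 b)
      (fun b _ x _ => E.Sm_tame (E.Sm_mono (by norm_num) le_rfl (E.Sm_sup (h4 b) (E.Sm_Vn x.node))))
    have hsum := hc (fun b => E.cnt (S b) (U ⊔ E.Vn b) (E.toGad.ext U (U ⊔ E.Vn b) f')) hcA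
    have hsum' : E.cnt (⋃ b ∈ B, S b) U f' ∈ A' := by
      rw [← htwo]
      exact hsum
    refine ⟨U, f', hU1, hS5, hf', ha', ⟨a, true⟩, haΛ, ?_⟩
    refine (E.tr_ext (x := ⟨a, true⟩) hU3 hT hf').2 ?_
    show E.val a f' ↔ true = true
    rw [E.val_sym_iff ha hU3 hS5 hf']
    exact ⟨fun _ => rfl, fun _ => hsum'⟩
  · refine ⟨U, f', hU1, hS5, hf', ha', ⟨p, false⟩, hpΛ, ?_⟩
    refine (E.tr_ext (x := ⟨p, false⟩) hU2 hT hf').2 ?_
    show E.val p f' ↔ false = true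
    exact ⟨fun h => absurd h hv, fun h => absurd h (by decide)⟩

end Eng

end Pool.Agent.H16.LE
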