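import Pool.Agent.H16.LE.Cnt

/-!
# Soundness of the distribution rule, local version

As `H79/CQ/Ru3`; the bijections of `F` come from the stabilisers of the nodes `u j`.
-/

set_option autoImplicit false
set_option linter.unusedSectionVars false
set_option linter.unusedVariables false

namespace Pool.Agent.H16.LE

open Pool.Agent.H42.CS (Ax Atom Lit Gate Circuit Step Refutation)
open Pool.Agent.H79.CQ (Gad Wd sh Vs Gad.ext Gad.Agr Gad.IsW Gad.Tame nm sh_sh Vs_anti Vs_perp Vs_conj Vs_top)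

variable {p : ℕ} [hp : Fact p.Prime]

private theorem ru3_fin {N : Type} [Finite N] : Finite (Lit N) :=
  Finite.of_injective (fun x : Lit N => (x.node, x.pos)) fun x y h => by
    rw [Prod.mk.injEq] at h
    exact Lit.ext h.1 h.2

open Classical in
/-- A bijection of `m '' F` gives a bijection of `F`. -/
private theorem ru3_bij {β X : Type} [Nonempty β] {F : Set β} {m : β → X} (hm : Set.InjOn m F) {b : X → X}
    (hb : Set.BijOn b (m '' F) (m '' F)) : ∃ φ : β → β, Set.BijOn φ F F ∧ ∀ z ∈ F, m (φ z) = b (m z) := by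
  obtain ⟨φ, hφ⟩ : ∃ φ : β → β, ∀ z ∈ F, φ z ∈ F ∧ m (φ z) = b (m z) := by
    refine ⟨fun z => if h : ∃ z' ∈ F, m z' = b (m z) then h.choose else z, fun z hz => ?_⟩
    have h : ∃ z' ∈ F, m z' = b (m z) := hb.mapsTo (Set.mem_image_of_mem m hz)
    simp only [dif_pos h]
    exact h.choose_spec
  refine ⟨φ, ⟨fun z hz => (hφ z hz).1, ?_, ?_⟩, fun z hz => (hφ z hz).2⟩
  · intro z hz w hw he
    have h1 : b (m z) = b (m w) := by rw [← (hφ z hz).2, ← (hφ w hw).2, he]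
    exact hm hz hw (hb.injOn (Set.mem_image_of_mem m hz) (Set.mem_image_of_mem m hw) h1)
  · intro w hw
    obtain ⟨x, ⟨z, hz, rfl⟩, h1⟩ := hb.surjOn (Set.mem_image_of_mem m hw)
    refine ⟨z, hz, hm (hφ z hz).1 hw ?_⟩
    rw [(hφ z hz).2]
    exact h1

private theorem ru3_sh0 {K : Type} [Fintype K] (f : Wd p K) (t : K → ZMod p) : sh t (sh (-t) f) = f := by
  rw [sh_sh, add_neg_cancel]
  funext y
  show f y + (0 : K → ZMod p) ⬝ᵥ y = f y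
  rw [zero_dotProduct, add_zero]

namespace Eng

variable {Rel : ℕ → Type} {P K G : Type} [Fintype K] [Group G] (E : Eng p Rel P K G)

theorem cntX_loc {X : Set (Lit E.C.N)} {b : E.C.N} {A : Set ℕ} (h : E.C.gate b = .sym A X)
    {U U' : Submodule (ZMod p) (K → ZMod p)} {f f' : Wd p K} (hU : E.Vx X ≤ U)
    (hU' : E.Vx X ≤ U') (hS : E.Sm 5 U) (hS' : E.Sm 5 U') (hf : E.toGad.IsW U f)
    (hf' : E.toGad.IsW U' f') (ha : E.toGad.Agr (E.Vx X) f f') :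
    E.cnt X U f = E.cnt X U' f' := by
  refine E.cnt_eq (stS E.C E.ρ X) X le_rfl hU hU' (fun x _ => ?_) (fun x _ => ?_) hf hf' ha
  · exact E.Sm_tame (E.Sm_sup hS (E.Sm_Vn x.node))
  · exact E.Sm_tame (E.Sm_sup hS' (E.Sm_Vn x.node))

private theorem ru3_Vl_le {X : Set (Lit E.C.N)} {b : E.C.N} {A : Set ℕ} (h : E.C.gate b = .sym A X) :
    E.Vx X ≤ E.Vn b := Vs_anti (E.stN_le_sym h)

private theorem ru3_Vl_Sm {X : Set (Lit E.C.N)} {b : E.C.N} {A : Set ℕ} (h : E.C.gate b = .sym A X) :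
    E.Sm 1 (E.Vx X) := E.Sm_mono le_rfl (E.ru3_Vl_le h) (E.Sm_Vn b)

theorem cntX_equi {X : Set (Lit E.C.N)} {b : E.C.N} {A : Set ℕ} (h : E.C.gate b = .sym A X)
    {g : G} {Y : Set (Lit E.C.N)} (hXY : ImgS E.C (E.ρ g) X Y) {f : Wd p K} (hf : E.toGad.IsW (E.Vx X) f) :
    E.cnt Y (E.Vx X) (sh (E.pr g) f) = E.cnt X (E.Vx X) f := by
  obtain ⟨β, hβ1, hβ2, hβ3⟩ := hXY
  obtain ⟨V, hV⟩ : ∃ V, V = E.Vx X := ⟨_, rfl⟩
  have ht : ∀ x : Lit E.C.N, E.toGad.Tame (V ⊔ E.Vn x.node) := by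
    intro x
    rw [hV]
    exact E.Sm_tame (E.Sm_mono (by norm_num : 1 + 1 ≤ 6) le_rfl (E.Sm_sup (E.ru3_Vl_Sm h) (E.Sm_Vn x.node)))
  rw [← hV] at hf ⊢
  have hf2 : E.toGad.IsW V (sh (E.pr g) f) := E.toGad.isW_sh hf _
  have hj : ∀ h ∈ stS E.C E.ρ X, _ := fun h hh => E.bj_spec hh
  have hk := E.gkl (X := Lit E.C.N) (stS E.C E.ρ X) (fun h x => E.bj X h x) X
    (fun h hh => (hj h hh).1)
    (fun x => E.Vn x.node) (fun h hh x hx => E.Vn_img ((hj h hh).2.2 x hx)) (fun x f => E.tr x f)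
    (fun x _ f f' hf ha => E.tr_loc hf ha)
    (fun h hh x hx f hf => E.tr_equi ((hj h hh).2.2 x hx) ((hj h hh).2.1 x hx) hf)
    (fun x => sh (-E.pr g) (E.toGad.ext V (V ⊔ E.Vn x.node) (sh (E.pr g) f)))
    (fun x => E.toGad.ext V (V ⊔ E.Vn x.node) f)
    (fun h hh x hx => by
      show sh (-E.pr g) (E.toGad.ext V (V ⊔ E.Vn (E.bj X h x).node) (sh (E.pr g) f)) = _
      rw [E.Vn_img ((hj h hh).2.2 x hx)])
    (fun h hh x hx => by
      show E.toGad.ext V (V ⊔ E.Vn (E.bj X h x).node) f = _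
      rw [E.Vn_img ((hj h hh).2.2 x hx)])
    (fun x _ => by
      have h1 := E.toGad.isW_sh (E.toGad.ext_isW (le_sup_left : V ≤ V ⊔ E.Vn x.node) (ht x) hf2) (-E.pr g)
      rw [hV] at h1 ⊢
      exact h1)
    (fun x _ => by
      have h1 := E.toGad.ext_isW (le_sup_left : V ≤ V ⊔ E.Vn x.node) (ht x) hf
      rw [hV] at h1 ⊢
      exact h1)
    (fun x _ => by
      have h1 := E.toGad.ext_agr (le_sup_left : V ≤ V ⊔ E.Vn x.node) (ht x) hf2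
      have h2 := E.toGad.ext_agr (le_sup_left : V ≤ V ⊔ E.Vn x.node) (ht x) hf
      intro y hy hyD
      have hyV : y ∈ V := by rw [hV]; exact hy
      have h3 := h1 y hyV hyD
      have h4 := h2 y hyV hyD
      have h5 := congrFun (ru3_sh0 f (-E.pr g)) y
      rw [neg_neg] at h5
      show E.toGad.ext V (V ⊔ E.Vn x.node) (sh (E.pr g) f) y + -E.pr g ⬝ᵥ y = _
      rw [← h3, ← h4]
      exact h5)
  refine Eq.trans ?_ hk
  have hset : {x | x ∈ Y ∧ E.tr x (E.toGad.ext V (V ⊔ E.Vn x.node) (sh (E.pr g) f))} =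
      β '' {x | x ∈ X ∧ E.tr x (sh (-E.pr g) (E.toGad.ext V (V ⊔ E.Vn x.node) (sh (E.pr g) f)))} := by
    have key : ∀ x ∈ X, (E.tr (β x) (E.toGad.ext V (V ⊔ E.Vn (β x).node)
        (sh (E.pr g) f)) ↔ E.tr x (sh (-E.pr g) (E.toGad.ext V (V ⊔ E.Vn x.node) (sh (E.pr g) f)))) := by
      intro x hx
      rw [E.Vn_img (hβ3 x hx)]
      have h1 := E.toGad.isW_sh (E.toGad.ext_isW (le_sup_left : V ≤ V ⊔ E.Vn x.node) (ht x) hf2) (-E.pr g)
      have h2 := E.tr_equi (hβ3 x hx) (hβ2 x hx)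
        (E.toGad.isW_mono (le_sup_right : E.Vn x.node ≤ V ⊔ E.Vn x.node) h1)
      rw [ru3_sh0] at h2
      exact h2
    ext y
    constructor
    · rintro ⟨hy, h2⟩
      obtain ⟨x, hx, rfl⟩ := hβ1.surjOn hy
      exact ⟨x, ⟨hx, (key x hx).1 h2⟩, rfl⟩
    · rintro ⟨x, ⟨hx, h2⟩, rfl⟩
      exact ⟨hβ1.mapsTo hx, (key x hx).2 h2⟩
  show {x | x ∈ Y ∧ E.tr x (E.toGad.ext V (V ⊔ E.Vn x.node) (sh (E.pr g) f))}.ncard = _
  rw [hset, (hβ1.injOn.mono fun x hx => hx.1).ncard_image]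

/-- the weighted count -/
private theorem ru3_count {β : Type} (F : Set β) (hF : F.Finite) (c : β → ℕ) (J : ℕ) (hc : ∀ X ∈ F, c X ≤ J) :
    ∑ j ∈ Finset.range (J + 1), {X | X ∈ F ∧ c X = j}.ncard = F.ncard ∧
      ∑ j ∈ Finset.range (J + 1), j * {X | X ∈ F ∧ c X = j}.ncard = ∑ᶠ X ∈ F, c X := by
  classical
  have h1 : ∀ j, {X | X ∈ F ∧ c X = j}.ncard = (hF.toFinset.filter fun X => c X = j).card := by
    intro j
    rw [← Set.ncard_coe_finset]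
    congr 1
    ext X
    simp
  have hmaps : ∀ X ∈ hF.toFinset, c X ∈ Finset.range (J + 1) := by
    intro X hX
    rw [Finset.mem_range]
    have := hc X ((hF.mem_toFinset).1 hX)
    omega
  simp only [h1]
  constructor
  · rw [Set.ncard_eq_toFinset_card _ hF]
    exact (Finset.card_eq_sum_card_fiberwise hmaps).symm
  · rw [finsum_mem_eq_finite_toFinset_sum _ hF, ← Finset.sum_fiberwise_of_maps_to hmaps]
    refine Finset.sum_congr rfl fun j _ => ?_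
    rw [Finset.sum_congr rfl (fun X hX => (Finset.mem_filter.1 hX).2), Finset.sum_const, smul_eq_mul, mul_comm]

/-- the change of the worlds -/
private theorem ru3_chg {F : Set (Set (Lit E.C.N))} {b0 : Set (Lit E.C.N) → E.C.N} {A0 : Set (Lit E.C.N) → Set ℕ}
    (hb : ∀ X ∈ F, E.C.gate (b0 X) = .sym (A0 X) X) (H : Subgroup G)
    (φ : G → Set (Lit E.C.N) → Set (Lit E.C.N)) (hφ : ∀ g ∈ H, Set.BijOn (φ g) F F)
    (hφi : ∀ g ∈ H, ∀ X ∈ F, ImgS E.C (E.ρ g) X (φ g X)) (j : ℕ) (W1 W2 : Set (Lit E.C.N) → Wd p K)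
    (hW1 : ∀ g ∈ H, ∀ X ∈ F, W1 (φ g X) = W1 X)
    (hW2 : ∀ g ∈ H, ∀ X ∈ F, W2 (φ g X) = W2 X)
    (hw1 : ∀ X ∈ F, E.toGad.IsW (Vs E.pr H ⊔ E.Vx X) (W1 X))
    (hw2 : ∀ X ∈ F, E.toGad.IsW (Vs E.pr H ⊔ E.Vx X) (W2 X))
    (ha : ∀ X ∈ F, E.toGad.Agr (Vs E.pr H) (W1 X) (W2 X)) :
    {X | X ∈ F ∧ E.cnt X (E.Vx X) (W1 X) = j}.ncard = {X | X ∈ F ∧ E.cnt X (E.Vx X) (W2 X) = j}.ncard := by
  refine E.gkl (X := Set (Lit E.C.N)) H φ F hφ E.Vx (fun g hg X hX => E.Vx_img (hφi g hg X hX))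
    (fun X f => E.cnt X (E.Vx X) f = j) ?_ ?_ W1 W2 hW1 hW2 hw1 hw2 ha
  · intro X hX f f' hf hag
    have hS : E.Sm 5 (E.Vx X) := E.Sm_mono (by norm_num) le_rfl (E.ru3_Vl_Sm (hb X hX))
    have h1 := E.cntX_loc (hb X hX) le_rfl le_rfl hS hS hf (E.toGad.isW_congr hf hag) hag
    rw [h1]
  · intro g hg X hX f hf
    have h1 := E.cntX_equi (hb X hX) (hφi g hg X hX) hf
    show E.cnt (φ g X) (E.Vx (φ g X)) (sh (E.pr g) f) = j ↔ _
    rw [E.Vx_img (hφi g hg X hX), h1]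

theorem sound_dist {Λ : Set (Lit E.C.N)} (hΛ : E.Vl Λ ∈ E.fam) {a : E.C.N}
    {F : Set (Set (Lit E.C.N))} {J : ℕ} {B : ℕ → Set (Lit E.C.N) → E.C.N} {u : ℕ → E.C.N}
    {A : ℕ → Set ℕ} {A' : Set ℕ} (hF : F.PairwiseDisjoint id) (hJ : ∀ X ∈ F, X.ncard ≤ J)
    (hB : ∀ j ≤ J, ∀ X ∈ F, E.C.gate (B j X) = .sym {j} X)
    (hu : ∀ j ≤ J, E.C.gate (u j) = .sym (A j) ((fun X => ⟨B j X, true⟩) '' F))
    (ha : E.C.gate a = .sym A' (⋃₀ F))
    (ht : ∀ t : ℕ → ℕ, (∀ j ≤ J, t j ∈ A j) →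
      ∑ j ∈ Finset.range (J + 1), t j = F.ncard → ∑ j ∈ Finset.range (J + 1), j * t j ∈ A')
    (huΛ : ∀ j ≤ J, ⟨u j, false⟩ ∈ Λ) (haΛ : ⟨a, true⟩ ∈ Λ) : E.Tru Λ := by
  have hfin : Finite (Lit E.C.N) := ru3_fin
  have hfin2 : Finite (Set (Lit E.C.N)) := inferInstance
  have hFfin : F.Finite := Set.toFinite F
  -- the spaces
  have s1 : ∀ {W : Submodule (ZMod p) (K → ZMod p)} {k : ℕ}, E.Sm k W → k ≤ 5 → E.Sm 5 W :=
    fun h hk => E.Sm_mono hk le_rfl h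
  have t1 : ∀ {W : Submodule (ZMod p) (K → ZMod p)} {k : ℕ}, E.Sm k W → k ≤ 6 → E.toGad.Tame W :=
    fun h hk => E.Sm_tame (E.Sm_mono hk le_rfl h)
  obtain ⟨U, hU⟩ : ∃ U, U = E.Vl Λ ⊔ E.Vn a ⊔ E.Vn (u 0) := ⟨_, rfl⟩
  have hUS : E.Sm 3 U := by
    rw [hU]
    exact E.Sm_sup (E.Sm_sup (E.Sm_mem hΛ) (E.Sm_Vn a)) (E.Sm_Vn (u 0))
  have hUl : E.Vl Λ ≤ U := by rw [hU]; exact le_sup_left.trans le_sup_left
  have hUa : E.Vn a ≤ U := by rw [hU]; exact le_sup_right.trans le_sup_left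
  have hU0 : E.Vn (u 0) ≤ U := by rw [hU]; exact le_sup_right
  have binj : ∀ j ≤ J, Set.InjOn (fun X => (⟨B j X, true⟩ : Lit E.C.N)) F := by
    intro j hj X hX Y hY h
    have h1 : B j X = B j Y := congrArg Lit.node h
    have h2 := hB j hj X hX
    rw [h1, hB j hj Y hY] at h2
    exact (Gate.sym.inj h2).2.symm
  -- the invariance of `F`
  have inv : ∀ j ≤ J, ∃ φ : G → Set (Lit E.C.N) → Set (Lit E.C.N), ∀ g ∈ stN E.C E.ρ (u j),
      Set.BijOn (φ g) F F ∧ ∀ X ∈ F, Img E.C (E.ρ g) (B j X) (B j (φ g X)) ∧ ImgS E.C (E.ρ g) X (φ g X) := by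
    classical
    intro j hj
    have h1 : ∀ g : G, ∃ φ : Set (Lit E.C.N) → Set (Lit E.C.N), g ∈ stN E.C E.ρ (u j) →
        Set.BijOn φ F F ∧ ∀ X ∈ F, Img E.C (E.ρ g) (B j X) (B j (φ X)) ∧ ImgS E.C (E.ρ g) X (φ X) := by
      intro g
      by_cases hg : g ∈ stN E.C E.ρ (u j)
      · obtain ⟨k1, -, k3⟩ := E.bj_spec (E.stN_le_sym (hu j hj) hg)
        obtain ⟨φ, hφ1, hφ2⟩ := ru3_bij (binj j hj) k1
        refine ⟨φ, fun _ => ⟨hφ1, fun X hX => ?_⟩⟩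
        have h2 := k3 _ (Set.mem_image_of_mem _ hX)
        rw [← hφ2 X hX] at h2
        have h3 : Img E.C (E.ρ g) (B j X) (B j (φ X)) := h2
        refine ⟨h3, ?_⟩
        obtain ⟨S', h5, h6⟩ := img_sym h3 (hB j hj X hX)
        rw [hB j hj _ (hφ1.mapsTo hX)] at h5
        have h7 := (Gate.sym.inj h5).2
        rw [h7]
        exact h6
      · exact ⟨id, fun h => absurd h hg⟩
    choose φ hφ using h1
    exact ⟨φ, hφ⟩
  have hVlS : ∀ X ∈ F, E.Sm 1 (E.Vx X) := fun X hX => E.ru3_Vl_Sm (hB 0 (Nat.zero_le _) X hX)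
  refine E.Tru_of hΛ fun f hf => ?_
  obtain ⟨f', hf'⟩ : ∃ f', f' = E.toGad.ext (E.Vl Λ) U f := ⟨_, rfl⟩
  have htU : E.toGad.Tame U := t1 hUS (by norm_num)
  have hw' : E.toGad.IsW U f' := by rw [hf']; exact E.toGad.ext_isW hUl htU hf
  have hag' : E.toGad.Agr (E.Vl Λ) f f' := by rw [hf']; exact E.toGad.ext_agr hUl htU hf
  refine ⟨U, f', hUl, s1 hUS (by norm_num), hw', hag', ?_⟩
  by_contra hno
  push Not at hno
  -- the worlds `w j`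
  have hUjS : ∀ j, E.Sm 4 (U ⊔ E.Vn (u j)) := fun j => E.Sm_sup hUS (E.Sm_Vn (u j))
  obtain ⟨w, hw⟩ : ∃ w : ℕ → Wd p K, w = fun j => E.toGad.ext U (U ⊔ E.Vn (u j)) f' := ⟨_, rfl⟩
  have hwW : ∀ j, E.toGad.IsW (U ⊔ E.Vn (u j)) (w j) := by
    intro j
    rw [hw]
    exact E.toGad.ext_isW le_sup_left (t1 (hUjS j) (by norm_num)) hw'
  have hwA : ∀ j, E.toGad.Agr U f' (w j) := by
    intro j
    rw [hw]
    exact E.toGad.ext_agr le_sup_left (t1 (hUjS j) (by norm_num)) hw'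
  have hval : ∀ j ≤ J, E.val (u j) (w j) := by
    intro j hj
    have h1 := hno _ (huΛ j hj)
    by_contra h2
    refine h1 ?_
    show E.val (u j) (E.toGad.ext U (U ⊔ E.Vn (u j)) f') ↔ false = true
    constructor
    · intro h3
      refine absurd ?_ h2
      rw [hw]
      exact h3
    · intro h3
      exact absurd h3 (by decide)
  obtain ⟨t, htd⟩ : ∃ t : ℕ → ℕ, t = fun j => E.cnt ((fun X => ⟨B j X, true⟩) '' F) (U ⊔ E.Vn (u j)) (w j) :=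
    ⟨_, rfl⟩
  have htA : ∀ j ≤ J, t j ∈ A j := by
    intro j hj
    rw [htd]
    exact (E.val_sym_iff (hu j hj) le_sup_right (s1 (hUjS j) (by norm_num)) (hwW j)).1 (hval j hj)
  -- the numbers
  obtain ⟨c, hc⟩ : ∃ c : Set (Lit E.C.N) → ℕ, c = fun X => E.cnt X (E.Vx X) (E.toGad.ext U (U ⊔ E.Vx X) f') :=
    ⟨_, rfl⟩
  have ht0 : ∀ X ∈ F, E.toGad.Tame (U ⊔ E.Vx X) := fun X hX => t1 (E.Sm_sup hUS (hVlS X hX)) (by norm_num)
  obtain ⟨φ0, hφ0⟩ := inv 0 (Nat.zero_le _)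
  have hteq : ∀ j ≤ J, t j = {X | X ∈ F ∧ c X = j}.ncard := by
    intro j hj
    have hBj := hB j hj
    have hS5 : ∀ X, E.Sm 5 (U ⊔ E.Vn (u j) ⊔ E.Vn (B j X)) := fun X => E.Sm_sup (hUjS j) (E.Sm_Vn _)
    have hT5 : ∀ X, E.toGad.Tame (U ⊔ E.Vn (u j) ⊔ E.Vn (B j X)) := fun X => t1 (hS5 X) (by norm_num)
    have hT5' : ∀ X ∈ F, E.toGad.Tame (U ⊔ E.Vn (u j) ⊔ E.Vx X) := fun X hX =>
      t1 (E.Sm_sup (hUjS j) (hVlS X hX)) (by norm_num)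
    have hVB : ∀ X ∈ F, E.Vx X ≤ E.Vn (B j X) := fun X hX => E.ru3_Vl_le (hBj X hX)
    obtain ⟨φ, hφ⟩ := inv j hj
    -- step 0
    have e0 : t j = {X | X ∈ F ∧ E.cnt X (E.Vx X)
        (E.toGad.ext (U ⊔ E.Vn (u j)) (U ⊔ E.Vn (u j) ⊔ E.Vn (B j X)) (w j)) = j}.ncard := by
      have key : ∀ X ∈ F, (E.tr ⟨B j X, true⟩
          (E.toGad.ext (U ⊔ E.Vn (u j)) (U ⊔ E.Vn (u j) ⊔ E.Vn (B j X)) (w j)) ↔
          E.cnt X (E.Vx X) (E.toGad.ext (U ⊔ E.Vn (u j)) (U ⊔ E.Vn (u j) ⊔ E.Vn (B j X)) (w j)) = j) := by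
        intro X hX
        have hW := E.toGad.ext_isW (le_sup_left : U ⊔ E.Vn (u j) ≤ U ⊔ E.Vn (u j) ⊔ E.Vn (B j X)) (hT5 X) (hwW j)
        have h1 := E.val_sym_iff (hBj X hX) (le_sup_right : E.Vn (B j X) ≤ U ⊔ E.Vn (u j) ⊔ E.Vn (B j X))
          (hS5 X) hW
        have hle : E.Vx X ≤ U ⊔ E.Vn (u j) ⊔ E.Vn (B j X) := (hVB X hX).trans le_sup_right
        have h2 := E.cntX_loc (hBj X hX) hle le_rfl (hS5 X) (s1 (hVlS X hX) (by norm_num)) hW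
          (E.toGad.isW_mono hle hW) (fun y _ _ => rfl)
        rw [h2] at h1
        have h3 : E.tr ⟨B j X, true⟩ (E.toGad.ext (U ⊔ E.Vn (u j)) (U ⊔ E.Vn (u j) ⊔ E.Vn (B j X)) (w j)) ↔
            E.val (B j X) (E.toGad.ext (U ⊔ E.Vn (u j)) (U ⊔ E.Vn (u j) ⊔ E.Vn (B j X)) (w j)) := by
          show (E.val (B j X) _ ↔ true = true) ↔ _
          simp
        rw [h3, h1, Set.mem_singleton_iff]
      rw [htd]
      show {x | x ∈ (fun X => (⟨B j X, true⟩ : Lit E.C.N)) '' F ∧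
        E.tr x (E.toGad.ext (U ⊔ E.Vn (u j)) (U ⊔ E.Vn (u j) ⊔ E.Vn x.node) (w j))}.ncard = _
      have hset : {x | x ∈ (fun X => (⟨B j X, true⟩ : Lit E.C.N)) '' F ∧
          E.tr x (E.toGad.ext (U ⊔ E.Vn (u j)) (U ⊔ E.Vn (u j) ⊔ E.Vn x.node) (w j))} =
          (fun X => (⟨B j X, true⟩ : Lit E.C.N)) '' {X | X ∈ F ∧ E.cnt X (E.Vx X)
            (E.toGad.ext (U ⊔ E.Vn (u j)) (U ⊔ E.Vn (u j) ⊔ E.Vn (B j X)) (w j)) = j} := by
        ext y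
        constructor
        · rintro ⟨⟨X, hX, rfl⟩, h2⟩
          exact ⟨X, ⟨hX, (key X hX).1 h2⟩, rfl⟩
        · rintro ⟨X, ⟨hX, h2⟩, rfl⟩
          exact ⟨⟨X, hX, rfl⟩, (key X hX).2 h2⟩
      rw [hset]
      exact ((binj j hj).mono fun X hX => hX.1).ncard_image
    -- step 1
    have e1 : {X | X ∈ F ∧ E.cnt X (E.Vx X)
        (E.toGad.ext (U ⊔ E.Vn (u j)) (U ⊔ E.Vn (u j) ⊔ E.Vn (B j X)) (w j)) = j}.ncard =
        {X | X ∈ F ∧ E.cnt X (E.Vx X)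
        (E.toGad.ext (U ⊔ E.Vn (u j)) (U ⊔ E.Vn (u j) ⊔ E.Vx X) (w j)) = j}.ncard := by
      refine E.ru3_chg hBj (stN E.C E.ρ (u j)) φ (fun g hg => (hφ g hg).1)
        (fun g hg X hX => ((hφ g hg).2 X hX).2) j
        (fun X => E.toGad.ext (U ⊔ E.Vn (u j)) (U ⊔ E.Vn (u j) ⊔ E.Vn (B j X)) (w j))
        (fun X => E.toGad.ext (U ⊔ E.Vn (u j)) (U ⊔ E.Vn (u j) ⊔ E.Vx X) (w j)) ?_ ?_ ?_ ?_ ?_
      · intro g hg X hX
        show E.toGad.ext (U ⊔ E.Vn (u j)) (U ⊔ E.Vn (u j) ⊔ E.Vn (B j (φ g X))) (w j) = _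
        rw [E.Vn_img ((hφ g hg).2 X hX).1]
      · intro g hg X hX
        show E.toGad.ext (U ⊔ E.Vn (u j)) (U ⊔ E.Vn (u j) ⊔ E.Vx (φ g X)) (w j) = _
        rw [E.Vx_img ((hφ g hg).2 X hX).2]
      · intro X hX
        refine E.toGad.isW_mono ?_ (E.toGad.ext_isW le_sup_left (hT5 X) (hwW j))
        exact sup_le_sup le_sup_right (hVB X hX)
      · intro X hX
        refine E.toGad.isW_mono ?_ (E.toGad.ext_isW le_sup_left (hT5' X hX) (hwW j))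
        exact sup_le_sup le_sup_right le_rfl
      · intro X hX y hy hyD
        have hy' : y ∈ U ⊔ E.Vn (u j) := (le_sup_right : E.Vn (u j) ≤ U ⊔ E.Vn (u j)) hy
        have a1 := E.toGad.ext_agr le_sup_left (hT5 X) (hwW j) y hy' hyD
        have a2 := E.toGad.ext_agr le_sup_left (hT5' X hX) (hwW j) y hy' hyD
        rw [← a1, ← a2]
    -- step 2
    have e2 : {X | X ∈ F ∧ E.cnt X (E.Vx X)
        (E.toGad.ext (U ⊔ E.Vn (u j)) (U ⊔ E.Vn (u j) ⊔ E.Vx X) (w j)) = j}.ncard =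
        {X | X ∈ F ∧ E.cnt X (E.Vx X) (E.toGad.ext U (U ⊔ E.Vx X) f') = j}.ncard := by
      refine E.ru3_chg hBj (stN E.C E.ρ (u 0)) φ0 (fun g hg => (hφ0 g hg).1)
        (fun g hg X hX => ((hφ0 g hg).2 X hX).2) j
        (fun X => E.toGad.ext (U ⊔ E.Vn (u j)) (U ⊔ E.Vn (u j) ⊔ E.Vx X) (w j))
        (fun X => E.toGad.ext U (U ⊔ E.Vx X) f') ?_ ?_ ?_ ?_ ?_
      · intro g hg X hX
        show E.toGad.ext (U ⊔ E.Vn (u j)) (U ⊔ E.Vn (u j) ⊔ E.Vx (φ0 g X)) (w j) = _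
        rw [E.Vx_img ((hφ0 g hg).2 X hX).2]
      · intro g hg X hX
        show E.toGad.ext U (U ⊔ E.Vx (φ0 g X)) f' = _
        rw [E.Vx_img ((hφ0 g hg).2 X hX).2]
      · intro X hX
        refine E.toGad.isW_mono ?_ (E.toGad.ext_isW le_sup_left (hT5' X hX) (hwW j))
        exact sup_le_sup (hU0.trans le_sup_left) le_rfl
      · intro X hX
        refine E.toGad.isW_mono ?_ (E.toGad.ext_isW le_sup_left (ht0 X hX) hw')
        exact sup_le_sup hU0 le_rfl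
      · intro X hX y hy hyD
        have hyU : y ∈ U := hU0 hy
        have hy' : y ∈ U ⊔ E.Vn (u j) := (le_sup_left : U ≤ U ⊔ E.Vn (u j)) hyU
        have a1 := E.toGad.ext_agr le_sup_left (hT5' X hX) (hwW j) y hy' hyD
        have a2 := E.toGad.ext_agr le_sup_left (ht0 X hX) hw' y hyU hyD
        have a3 := hwA j y hyU hyD
        rw [← a1, ← a2, a3]
    rw [e0, e1, e2, hc]
  have hcJ : ∀ X ∈ F, c X ≤ J := by
    intro X hX
    refine le_trans ?_ (hJ X hX)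
    rw [hc]
    exact Set.ncard_le_ncard (fun x hx => hx.1) (Set.toFinite X)
  obtain ⟨n1, n2⟩ := ru3_count F hFfin c J hcJ
  have n1' : ∑ j ∈ Finset.range (J + 1), t j = F.ncard := by
    rw [← n1]
    refine Finset.sum_congr rfl fun j hj => hteq j ?_
    have := Finset.mem_range.1 hj
    omega
  have n2' : ∑ j ∈ Finset.range (J + 1), j * t j = ∑ᶠ X ∈ F, c X := by
    rw [← n2]
    refine Finset.sum_congr rfl fun j hj => ?_
    rw [hteq j (by have := Finset.mem_range.1 hj; omega)]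
  have hfinal := ht t htA n1'
  rw [n2'] at hfinal
  have htwo := E.two (β := Set (Lit E.C.N)) (stN E.C E.ρ (u 0)) φ0 F hFfin
    (fun g hg => (hφ0 g hg).1) E.Vx (fun g hg X hX => E.Vx_img ((hφ0 g hg).2 X hX).2) id
    (fun g hg X hX => ((hφ0 g hg).2 X hX).2) hF (U := U) (f := f') hU0 hw' ht0
    (fun X hX x _ => t1 (E.Sm_sup (E.Sm_sup hUS (hVlS X hX)) (E.Sm_Vn x.node)) (by norm_num))
  have hcc : ∑ᶠ X ∈ F, c X = ∑ᶠ X ∈ F, E.cnt (id X) (U ⊔ E.Vx X) (E.toGad.ext U (U ⊔ E.Vx X) f') := by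
    refine finsum_mem_congr rfl fun X hX => ?_
    rw [hc]
    have hW := E.toGad.ext_isW (le_sup_left : U ≤ U ⊔ E.Vx X) (ht0 X hX) hw'
    exact E.cntX_loc (hB 0 (Nat.zero_le _) X hX) le_rfl le_sup_right (s1 (hVlS X hX) (by norm_num))
      (s1 (E.Sm_sup hUS (hVlS X hX)) (by norm_num)) (E.toGad.isW_mono le_sup_right hW) hW (fun y _ _ => rfl)
  rw [hcc, htwo] at hfinal
  have hun : (⋃ X ∈ F, id X) = ⋃₀ F := by
    rw [Set.sUnion_eq_biUnion]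
    rfl
  rw [hun] at hfinal
  have hva : E.val a f' := (E.val_sym_iff ha hUa (s1 hUS (by norm_num)) hw').2 hfinal
  refine hno ⟨a, true⟩ haΛ ?_
  have hte := E.tr_ext (x := ⟨a, true⟩) (U := U) (f := f') hUa htU hw'
  rw [hte]
  show E.val a f' ↔ true = true
  simp [hva]

end Eng

end Pool.Agent.H16.LE
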