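import Pool.Agent.H16.LE.Gkl

/-!
# Values: locality and equivariance, local version

`val_all`: if the formula below `b` is the image under `ρ g` of the formula below `a` and `f'` agrees with
`sh (pr g) f` on `Vn a = Vn b`, then `val b f' ↔ val a f`. By strong induction on the rank of `a`, as in
`H79/CQ/Val`: the bijection of the children of `a` with the children of `b` and `gkl` for the group `stN a`.
-/

set_option autoImplicit false
set_option linter.unusedSectionVars false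
set_option linter.unusedVariables false

namespace Pool.Agent.H16.LE

open Pool.Agent.H42.CS (Ax Atom Lit Gate Circuit Step Refutation)
open Pool.Agent.H79.CQ (Gad Wd sh Vs Gad.ext Gad.Agr Gad.IsW Gad.Tame nm sh_sh Vs_anti Vs_perp Vs_conj Vs_top)

variable {p : ℕ} [hp : Fact p.Prime]

namespace Eng

variable {Rel : ℕ → Type} {P K G : Type} [Fintype K] [Group G] (E : Eng p Rel P K G)

omit [Fintype K] in
private theorem agr_sub {g : Gad p K} {U U' : Submodule (ZMod p) (K → ZMod p)} (hle : U ≤ U') {f f' : Wd p K}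
    (h : g.Agr U' f f') : g.Agr U f f' := fun y hy hD => h y (hle hy) hD

private theorem pr_one' : E.pr 1 = 0 := by
  have h := E.pr_mul 1 1
  rw [mul_one] at h
  exact left_eq_add.1 h

private theorem pr_inv' (g : G) : E.pr g⁻¹ = -E.pr g := by
  have h := E.pr_mul g⁻¹ g
  rw [inv_mul_cancel, E.pr_one'] at h
  exact eq_neg_of_add_eq_zero_left h.symm

private theorem sh_zero' (f : Wd p K) : sh 0 f = f := by
  funext y
  simp [sh]

private theorem pr_dd (g : G) : E.pr g + -E.pr g = 0 := add_neg_cancel _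

private theorem tame_two (a b : E.C.N) : E.toGad.Tame (E.Vn a ⊔ E.Vn b) :=
  E.Sm_tame (E.Sm_mono (by norm_num) le_rfl (E.Sm_sup (E.Sm_Vn a) (E.Sm_Vn b)))

private theorem count_eq {a : E.C.N} {S : Set (Lit E.C.N)} (hS : stN E.C E.ρ a ≤ stS E.C E.ρ S)
    (hL : ∀ x ∈ S, ∀ f f', E.toGad.IsW (E.Vn x.node) f → E.toGad.Agr (E.Vn x.node) f f' →
      (E.val x.node f ↔ E.val x.node f'))
    (hQ : ∀ x ∈ S, ∀ (g : G) (b : E.C.N) f, Img E.C (E.ρ g) x.node b → E.toGad.IsW (E.Vn x.node) f →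
      (E.val b (sh (E.pr g) f) ↔ E.val x.node f))
    (σ : Prop) (g : G) {β : Lit E.C.N → Lit E.C.N} (hβ : ∀ x ∈ S, (β x).pos = x.pos)
    (hβ' : ∀ x ∈ S, Img E.C (E.ρ g) x.node (β x).node) {f f' : Wd p K} (hf : E.toGad.IsW (E.Vn a) f)
    (ha : E.toGad.Agr (E.Vn a) (sh (E.pr g) f) f') :
    {x | x ∈ S ∧ (E.tr (β x) (E.toGad.ext (E.Vn a) (E.Vn a ⊔ E.Vn x.node) f') ↔ σ)}.ncard =
      {x | x ∈ S ∧ (E.tr x (E.toGad.ext (E.Vn a) (E.Vn a ⊔ E.Vn x.node) f) ↔ σ)}.ncard := by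
  have hf' : E.toGad.IsW (E.Vn a) f' := E.toGad.isW_congr (E.toGad.isW_sh hf (E.pr g)) ha
  have hj : ∀ h ∈ stN E.C E.ρ a, _ := fun h hh => E.bj_spec (hS hh)
  have h := E.gkl (stN E.C E.ρ a) (fun h x => E.bj S h x) S
    (fun h hh => (hj h hh).1)
    (fun x => E.Vn x.node) (fun h hh x hx => E.Vn_img ((hj h hh).2.2 x hx))
    (fun x f => (E.tr x f ↔ σ))
    (fun x hx f f' hf hff => by
      show ((E.val x.node f ↔ x.pos = true) ↔ σ) ↔ ((E.val x.node f' ↔ x.pos = true) ↔ σ)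
      rw [hL x hx f f' hf hff])
    (fun h hh x hx f hf => by
      show ((E.val (E.bj S h x).node (sh (E.pr h) f) ↔ (E.bj S h x).pos = true) ↔ σ) ↔
        ((E.val x.node f ↔ x.pos = true) ↔ σ)
      rw [hQ x hx h _ f ((hj h hh).2.2 x hx) hf, (hj h hh).2.1 x hx])
    (fun x => sh (E.pr g⁻¹) (E.toGad.ext (E.Vn a) (E.Vn a ⊔ E.Vn x.node) f'))
    (fun x => E.toGad.ext (E.Vn a) (E.Vn a ⊔ E.Vn x.node) f)
    (fun h hh x hx => by
      show sh (E.pr g⁻¹) (E.toGad.ext (E.Vn a) (E.Vn a ⊔ E.Vn (E.bj S h x).node) f') = _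
      rw [E.Vn_img ((hj h hh).2.2 x hx)])
    (fun h hh x hx => by
      show E.toGad.ext (E.Vn a) (E.Vn a ⊔ E.Vn (E.bj S h x).node) f = _
      rw [E.Vn_img ((hj h hh).2.2 x hx)])
    (fun x _ => E.toGad.isW_sh (E.toGad.ext_isW le_sup_left (E.tame_two a x.node) hf') _)
    (fun x _ => E.toGad.ext_isW le_sup_left (E.tame_two a x.node) hf)
    (fun x _ y hy hD => by
      have h1 := E.toGad.ext_agr (le_sup_left : E.Vn a ≤ E.Vn a ⊔ E.Vn x.node) (E.tame_two a x.node) hf' y hy hD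
      have h2 := E.toGad.ext_agr (le_sup_left : E.Vn a ≤ E.Vn a ⊔ E.Vn x.node) (E.tame_two a x.node) hf y hy hD
      have h3 := ha y hy hD
      show E.toGad.ext (E.Vn a) (E.Vn a ⊔ E.Vn x.node) f' y + E.pr g⁻¹ ⬝ᵥ y =
        E.toGad.ext (E.Vn a) (E.Vn a ⊔ E.Vn x.node) f y
      rw [← h1, ← h2, ← h3, E.pr_inv']
      show f y + E.pr g ⬝ᵥ y + -E.pr g ⬝ᵥ y = f y
      rw [neg_dotProduct]
      ring)
  have hset : {x | x ∈ S ∧ (E.tr (β x) (E.toGad.ext (E.Vn a) (E.Vn a ⊔ E.Vn x.node) f') ↔ σ)} =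
      {x | x ∈ S ∧ (E.tr x (sh (E.pr g⁻¹) (E.toGad.ext (E.Vn a) (E.Vn a ⊔ E.Vn x.node) f')) ↔ σ)} := by
    ext x
    simp only [Set.mem_ofPred_eq]
    refine and_congr_right fun hx => ?_
    have h1 := hQ x hx g (β x).node (sh (E.pr g⁻¹) (E.toGad.ext (E.Vn a) (E.Vn a ⊔ E.Vn x.node) f'))
      (hβ' x hx) (E.toGad.isW_mono le_sup_right
        (E.toGad.isW_sh (E.toGad.ext_isW le_sup_left (E.tame_two a x.node) hf') _))
    rw [sh_sh, E.pr_inv', E.pr_dd, sh_zero'] at h1
    show ((E.val (β x).node (E.toGad.ext (E.Vn a) (E.Vn a ⊔ E.Vn x.node) f') ↔ (β x).pos = true) ↔ σ) ↔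
      ((E.val x.node (sh (E.pr g⁻¹) (E.toGad.ext (E.Vn a) (E.Vn a ⊔ E.Vn x.node) f')) ↔ x.pos = true) ↔ σ)
    rw [h1, E.pr_inv', hβ x hx]
  rw [hset]
  exact h

private theorem val_all (m : ℕ) : ∀ a : E.C.N, E.C.rank a ≤ m → ∀ (g : G) (b : E.C.N) (f f' : Wd p K),
    Img E.C (E.ρ g) a b →
    E.toGad.IsW (E.Vn a) f → E.toGad.Agr (E.Vn a) (sh (E.pr g) f) f' →
      (E.val b f' ↔ E.val a f) := by
  induction m using Nat.strong_induction_on with
  | _ m ih =>
    intro a ham g b f f' hab hf ha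
    have hchild : ∀ x ∈ (E.C.gate a).children, ∀ (g : G) (b : E.C.N) (f f' : Wd p K),
        Img E.C (E.ρ g) x.node b →
        E.toGad.IsW (E.Vn x.node) f → E.toGad.Agr (E.Vn x.node) (sh (E.pr g) f) f' →
        (E.val b f' ↔ E.val x.node f) := fun x hx =>
      ih (E.C.rank x.node) (lt_of_lt_of_le (E.C.rank_lt a x hx) ham) x.node le_rfl
    have hL : ∀ x ∈ (E.C.gate a).children, ∀ f f', E.toGad.IsW (E.Vn x.node) f →
        E.toGad.Agr (E.Vn x.node) f f' → (E.val x.node f ↔ E.val x.node f') := by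
      intro x hx f f' hf hff
      exact (hchild x hx 1 x.node f f' (img_one E.C E.ρ _) hf (by rw [E.pr_one', sh_zero']; exact hff)).symm
    have hQ : ∀ x ∈ (E.C.gate a).children, ∀ (g : G) (b : E.C.N) f, Img E.C (E.ρ g) x.node b →
        E.toGad.IsW (E.Vn x.node) f →
        (E.val b (sh (E.pr g) f) ↔ E.val x.node f) := fun x hx g b f hb hf =>
      hchild x hx g b f _ hb hf (fun y _ _ => rfl)
    have hVb := E.Vn_img hab
    rcases hga : E.C.gate a with v | S | ⟨A, S⟩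
    · -- variable
      have hg' := img_var hab hga
      rw [E.val_var hga, E.val_var hg', ← E.leaf_equi g v f]
      refine (E.leaf_loc _ _ _ (agr_sub ?_ ha)).symm
      have h1 := E.Vs_stA_le hg'
      rw [hVb] at h1
      exact h1
    · -- conjunction
      rw [hga] at hL hQ
      obtain ⟨S', hg', β, hβ1, hβ2, hβ3⟩ := img_and hab hga
      have hc := E.count_eq (E.stN_le_and hga) hL hQ False g hβ2 hβ3 hf ha
      rw [E.val_and hga, E.val_and hg']
      have hfin : ∀ T : Set (Lit E.C.N), T.Finite := fun T => by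
        have : Finite (Lit E.C.N) :=
          Finite.of_injective (fun x : Lit E.C.N => (x.node, x.pos)) (fun x y h => by
            cases x; cases y; simp only [Prod.mk.injEq] at h; obtain ⟨h1, h2⟩ := h; subst h1; subst h2; rfl)
        exact Set.toFinite T
      have e1 : (∀ x ∈ S, E.tr x (E.toGad.ext (E.Vn a) (E.Vn a ⊔ E.Vn x.node) f)) ↔
          {x | x ∈ S ∧ (E.tr x (E.toGad.ext (E.Vn a) (E.Vn a ⊔ E.Vn x.node) f) ↔ False)}.ncard = 0 := by
        rw [Set.ncard_eq_zero (hfin _), Set.eq_empty_iff_forall_notMem]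
        constructor
        · rintro h x ⟨hx, h2⟩
          exact h2.1 (h x hx)
        · intro h x hx
          by_contra h2
          exact h x ⟨hx, iff_false_intro h2⟩
      have e2 : (∀ y ∈ S', E.tr y (E.toGad.ext (E.Vn b) (E.Vn b ⊔ E.Vn y.node) f')) ↔
          {x | x ∈ S ∧ (E.tr (β x) (E.toGad.ext (E.Vn a) (E.Vn a ⊔ E.Vn x.node) f') ↔
            False)}.ncard = 0 := by
        rw [Set.ncard_eq_zero (hfin _), Set.eq_empty_iff_forall_notMem, hVb]
        constructor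
        · rintro h x ⟨hx, h2⟩
          have h3 := h (β x) (hβ1.mapsTo hx)
          rw [E.Vn_img (hβ3 x hx)] at h3
          exact h2.1 h3
        · intro h y hy
          obtain ⟨x, hx, rfl⟩ := hβ1.surjOn hy
          rw [E.Vn_img (hβ3 x hx)]
          by_contra h2
          exact h x ⟨hx, iff_false_intro h2⟩
      rw [e1, e2, hc]
    · -- symmetric gate
      rw [hga] at hL hQ
      obtain ⟨S', hg', β, hβ1, hβ2, hβ3⟩ := img_sym hab hga
      have hc := E.count_eq (E.stN_le_sym hga) hL hQ True g hβ2 hβ3 hf ha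
      rw [E.val_sym hga, E.val_sym hg']
      have e2 : E.cnt S' (E.Vn b) f' = E.cnt S (E.Vn a) f := by
        unfold cnt
        rw [hVb]
        have e3 : {y | y ∈ S' ∧ E.tr y (E.toGad.ext (E.Vn a) (E.Vn a ⊔ E.Vn y.node) f')} =
            β '' {x | x ∈ S ∧ (E.tr (β x)
              (E.toGad.ext (E.Vn a) (E.Vn a ⊔ E.Vn x.node) f') ↔ True)} := by
          ext y
          constructor
          · rintro ⟨hy, h2⟩
            obtain ⟨x, hx, rfl⟩ := hβ1.surjOn hy
            refine ⟨x, ⟨hx, ?_⟩, rfl⟩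
            rw [E.Vn_img (hβ3 x hx)] at h2
            exact iff_true_intro h2
          · rintro ⟨x, ⟨hx, h2⟩, rfl⟩
            refine ⟨hβ1.mapsTo hx, ?_⟩
            rw [E.Vn_img (hβ3 x hx)]
            exact h2.2 trivial
        rw [e3, (hβ1.injOn.mono fun x hx => hx.1).ncard_image, hc]
        congr 1
        ext x
        simp only [Set.mem_ofPred_eq, iff_true]
      rw [e2]

theorem val_loc {a : E.C.N} {f f' : Wd p K} (hf : E.toGad.IsW (E.Vn a) f)
    (hff : E.toGad.Agr (E.Vn a) f f') : E.val a f ↔ E.val a f' :=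
  (E.val_all (E.C.rank a) a le_rfl 1 a f f' (img_one E.C E.ρ a) hf
    (by rw [E.pr_one', sh_zero']; exact hff)).symm

theorem val_equi {g : G} {a b : E.C.N} (h : Img E.C (E.ρ g) a b) {f : Wd p K}
    (hf : E.toGad.IsW (E.Vn a) f) : E.val b (sh (E.pr g) f) ↔ E.val a f :=
  E.val_all (E.C.rank a) a le_rfl g b f _ h hf (fun y _ _ => rfl)

theorem tr_loc {x : Lit E.C.N} {f f' : Wd p K} (hf : E.toGad.IsW (E.Vn x.node) f)
    (ha : E.toGad.Agr (E.Vn x.node) f f') : E.tr x f ↔ E.tr x f' := by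
  unfold tr
  rw [E.val_loc hf ha]

theorem tr_equi {g : G} {x y : Lit E.C.N} (h : Img E.C (E.ρ g) x.node y.node) (hp : y.pos = x.pos)
    {f : Wd p K} (hf : E.toGad.IsW (E.Vn x.node) f) :
    E.tr y (sh (E.pr g) f) ↔ E.tr x f := by
  show (E.val y.node (sh (E.pr g) f) ↔ y.pos = true) ↔ (E.val x.node f ↔ x.pos = true)
  rw [E.val_equi h hf, hp]

theorem tr_neg (x : Lit E.C.N) (f : Wd p K) : E.tr x.neg f ↔ ¬ E.tr x f := by
  show (E.val x.node f ↔ (!x.pos) = true) ↔ ¬ (E.val x.node f ↔ x.pos = true)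
  cases x.pos <;> simp

end Eng

end Pool.Agent.H16.LE
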